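import Mathlib

/-!
# Semistable families over a base with good reduction: definitions

`𝒪` is a henselian discrete valuation ring of characteristic `0` with finite residue field `k`
of `q` elements, `𝒵` is smooth and projective over `𝒪` with a `k`-rational point `z`, and `𝒳 → 𝒵`
is projective and relatively semistable: étale locally on `𝒳` it is smooth over
`𝒵[x_0, ..., x_a] / (x_0 ... x_a - π)`.  `K` is the coefficient field `ℚ_ℓ`.

* `W` is the Weil group of `𝒵_k`, `G` is its subgroup `π_1(𝒵_{k̄})`, and the element `z` of `W` is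
  the geometric Frobenius at the rational point `z`.
* A lisse Weil sheaf on `𝒵_k` is a continuous finite dimensional representation of `W`; a morphism
  of the corresponding sheaves on `𝒵_{k̄}` is a linear map which commutes with `G`, and the
  cohomology `H^j(𝒵_{k̄}, A)` is an additive functor for these morphisms.
* The nearby cycle sheaf `V b = R^b f_* RΨ ℚ_ℓ` is, after a lift to `Gal(K̄/K)` of the geometric
  Frobenius of `k` has been chosen, a lisse Weil sheaf on `𝒵_k` with a monodromy operator
  `N : V b → (V b)(-1)`.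
-/

set_option autoImplicit false

namespace Pool.Agent.TH131.WMF

open Polynomial

/-! ### Vector spaces with operators -/

/-- A vector space over `K`. -/
structure Sp (K : Type) [Field K] where
  carrier : Type
  [acg : AddCommGroup carrier]
  [mod : Module K carrier]

attribute [instance] Sp.acg Sp.mod

instance (K : Type) [Field K] : CoeSort (Sp K) Type := ⟨Sp.carrier⟩

section Operators

variable {K : Type} [Field K]

/-- linear operators -/
abbrev Op (U : Sp K) : Type := Module.End K U

/-- the product of a family of vector spaces -/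
def prodSp {ι : Type} (E : ι → Sp K) : Sp K := ⟨∀ i, E i⟩

/-- the product of a family of operators -/
def prodOp {ι : Type} (E : ι → Sp K) (φ : ∀ i, Op (E i)) : Op (prodSp E) where
  toFun x := fun i => φ i (x i)
  map_add' x y := funext fun i => map_add (φ i) (x i) (y i)
  map_smul' c x := funext fun i => map_smul (φ i) c (x i)

end Operators

/-! ### Weights -/

section Weights

variable (K : Type) [Field K] [CharZero K]

/-- `α` is a `q`-Weil number of weight `a`: it is algebraic and all its complex conjugates have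
absolute value `q ^ (a / 2)`. -/
def IsWeilNumber (q : ℕ) (a : ℤ) (α : AlgebraicClosure K) : Prop :=
  ∃ P : ℚ[X], P ≠ 0 ∧ aeval α P = 0 ∧ ∀ z : ℂ, aeval z P = 0 → ‖z‖ = (q : ℝ) ^ ((a : ℝ) / 2)

/-- `P` is not zero and all its roots are `q`-Weil numbers of weight `a`. -/
def IsWeightPolynomial (q : ℕ) (a : ℤ) (P : K[X]) : Prop :=
  P ≠ 0 ∧ ∀ α : AlgebraicClosure K, aeval α P = 0 → IsWeilNumber K q a α

variable {K} {U : Type} [AddCommGroup U] [Module K U]

/-- The endomorphism `φ` is pure of weight `a` on the quotient of `F` by `F'`: each element `x` of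
`F` is mapped to `F'` by `P(φ)` for a polynomial `P` all whose roots are `q`-Weil numbers of
weight `a`. -/
def IsPureOn (q : ℕ) (a : ℤ) (φ : Module.End K U) (F F' : Submodule K U) : Prop :=
  ∀ x ∈ F, ∃ P : K[X], IsWeightPolynomial K q a P ∧ aeval φ P x ∈ F'

/-- `φ` is pure of weight `a`. -/
def IsPure (q : ℕ) (a : ℤ) (φ : Module.End K U) : Prop := IsPureOn q a φ ⊤ ⊥

/-- `φ` is a geometric Frobenius, `N` the monodromy operator.  The monodromy filtration `M` of `N`
has the property that `φ` is pure of weight `w + a` on `M a / M (a - 1)` for all `a`. -/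
def IsMonodromyWeightPure (q : ℕ) (w : ℤ) (φ N : Module.End K U) : Prop :=
  ∃ M : ℤ → Submodule K U, Monotone M ∧ (∃ a, M a = ⊥) ∧ (∃ a, M a = ⊤) ∧
    (∀ a, ∀ x ∈ M a, N x ∈ M (a - 2)) ∧ (∀ a, ∀ x ∈ M a, φ x ∈ M a) ∧
    (∀ r : ℕ, ∀ x ∈ M r, (N ^ r) x ∈ M (-r - 1) → x ∈ M (r - 1)) ∧
    (∀ r : ℕ, ∀ y ∈ M (-r), ∃ x ∈ M r, (N ^ r) x - y ∈ M (-r - 1)) ∧
    ∀ a, IsPureOn q (w + a) φ (M a) (M (a - 1))

end Weights

/-! ### Sheaves on the base -/

/-- The special fibre `𝒵_k` of the base, with the rational point `z`. -/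
structure Base where
  /-- the number of elements of `k` -/
  q : ℕ
  one_lt_q : 1 < q
  /-- the Weil group of `𝒵_k` -/
  W : Type
  [group : Group W]
  /-- the fundamental group of `𝒵_{k̄}` -/
  G : Subgroup W
  normal : G.Normal
  /-- the geometric Frobenius at `z` -/
  z : W
  generate : ∀ w : W, ∃ g ∈ G, ∃ n : ℤ, w = g * z ^ n
  /-- all pairs `(w, d)`, `w` a geometric Frobenius at a closed point of degree `d` of `𝒵_k` -/
  frob : Set (W × ℕ)
  z_frob : (z, 1) ∈ frob

attribute [instance] Base.group

/-- A Weil sheaf on `𝒵_k`, as a representation of `W`. -/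
structure Sheaf (B : Base) (K : Type) [Field K] extends Sp K where
  act : B.W → Module.End K carrier
  act_one : act 1 = 1
  act_mul : ∀ w w', act (w * w') = act w * act w'

instance (B : Base) (K : Type) [Field K] : CoeSort (Sheaf B K) Type := ⟨fun A => A.toSp⟩

section Sheaves

variable {B : Base} {K : Type} [Field K]

/-- The linear map `f` commutes with `w`. -/
def Commutes {A A' : Sheaf B K} (f : A →ₗ[K] A') (w : B.W) : Prop :=
  ∀ v, f (A.act w v) = A'.act w (f v)

/-- `f` is a morphism of sheaves on `𝒵_{k̄}`. -/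
def IsMor {A A' : Sheaf B K} (f : A →ₗ[K] A') : Prop := ∀ g ∈ B.G, Commutes f g

/-- `S` is stable under `w`. -/
def Stable {A : Sheaf B K} (S : Submodule K A) (w : B.W) : Prop := ∀ v ∈ S, A.act w v ∈ S

/-- `A` is semisimple as a sheaf on `𝒵_{k̄}`. -/
def Semisimple (A : Sheaf B K) : Prop :=
  ∀ S : Submodule K A, (∀ g ∈ B.G, Stable S g) →
    ∃ T : Submodule K A, (∀ g ∈ B.G, Stable T g) ∧ IsCompl S T

/-- `A` is pure of weight `a`. -/
def Sheaf.IsPure [CharZero K] (A : Sheaf B K) (a : ℤ) : Prop :=
  ∀ p ∈ B.frob, WMF.IsPure (B.q ^ p.2) a (A.act p.1)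

end Sheaves

/-- The lisse Weil sheaves on `𝒵_k`: finite dimensional and continuous representations. -/
structure LisseSheaves (B : Base) (K : Type) [Field K] where
  Lisse : Sheaf B K → Prop
  sub : ∀ (A A' : Sheaf B K) (f : A →ₗ[K] A'), (∀ w, Commutes f w) → Function.Injective f →
    Lisse A' → Lisse A
  quotient : ∀ (A A' : Sheaf B K) (f : A →ₗ[K] A'), (∀ w, Commutes f w) →
    Function.Surjective f → Lisse A → Lisse A'

/-- The functors `A ↦ H^j(𝒵_{k̄}, A)`. -/
structure Cohomology (B : Base) (K : Type) [Field K] where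
  H : ℕ → Sheaf B K → Sp K
  map : ∀ (j : ℕ) (A A' : Sheaf B K) (f : A →ₗ[K] A'), IsMor f → (H j A →ₗ[K] H j A')
  map_id : ∀ (j : ℕ) (A : Sheaf B K) (h : IsMor (LinearMap.id : A →ₗ[K] A)) (x : H j A),
    map j A A LinearMap.id h x = x
  map_comp : ∀ (j : ℕ) (A A' A'' : Sheaf B K) (f : A →ₗ[K] A') (g : A' →ₗ[K] A'')
    (hf : IsMor f) (hg : IsMor g) (h : IsMor (g.comp f)) (x : H j A),
    map j A A'' (g.comp f) h x = map j A' A'' g hg (map j A A' f hf x)
  map_add : ∀ (j : ℕ) (A A' : Sheaf B K) (f g : A →ₗ[K] A') (hf : IsMor f) (hg : IsMor g)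
    (h : IsMor (f + g)) (x : H j A),
    map j A A' (f + g) h x = map j A A' f hf x + map j A A' g hg x

/-- The geometric Frobenius on `H^j(𝒵_{k̄}, A)`. -/
structure FrobeniusAction {B : Base} {K : Type} [Field K] (C : Cohomology B K) where
  frob : ∀ (j : ℕ) (A : Sheaf B K), Op (C.H j A)
  /-- A morphism `f : A → A'` of sheaves on `𝒵_{k̄}` which commutes with Frobenius (at `z`, hence
  everywhere) induces a map on cohomology which commutes with Frobenius. -/
  map_frob : ∀ (j : ℕ) (A A' : Sheaf B K) (f : A →ₗ[K] A') (hf : IsMor f), Commutes f B.z →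
    ∀ x, C.map j A A' f hf (frob j A x) = frob j A' (C.map j A A' f hf x)

/-- Deligne's theorem (Weil II): if the lisse Weil sheaf `A` is pure of weight `a`, then
`H^j(𝒵_{k̄}, A)` is pure of weight `a + j`. -/
def WeilTwo {B : Base} {K : Type} [Field K] [CharZero K] (L : LisseSheaves B K)
    {C : Cohomology B K} (Φ : FrobeniusAction C) : Prop :=
  ∀ (j : ℕ) (a : ℤ) (A : Sheaf B K), L.Lisse A → A.IsPure a → IsPure B.q (a + j) (Φ.frob j A)

/-! ### The family -/

/-- The Weil sheaves `V b = R^b f_* RΨ ℚ_ℓ` on `𝒵_k`; as a representation of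
`G = π_1(𝒵_{k̄})`, `V b` is `H^b` of the geometric generic fibre of the family. -/
structure Family (B : Base) (K : Type) [Field K] where
  V : ℕ → Sheaf B K
  /-- the monodromy operator -/
  N : ∀ b, Module.End K (V b)
  N_mor : ∀ b, IsMor (N b)
  N_z : ∀ b v, N b ((V b).act B.z v) = (B.q : K) • (V b).act B.z (N b v)

/-- The weight filtration of `V b`, which is given by the relative weight spectral sequence: its
graded pieces are pure lisse Weil sheaves. -/
structure WeightFiltration {B : Base} {K : Type} [Field K] [CharZero K] (A : Sheaf B K) where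
  fil : ℤ → Submodule K A
  mono : Monotone fil
  bot : ∃ a, fil a = ⊥
  top : ∃ a, fil a = ⊤
  stable : ∀ a w, Stable (fil a) w
  pure : ∀ a, ∀ p ∈ B.frob, IsPureOn (B.q ^ p.2) a (A.act p.1) (fil a) (fil (a - 1))

namespace Family

variable {B : Base} {K : Type} [Field K] (F : Family B K) (C : Cohomology B K)

/-- The cohomology `H^m` of the geometric generic fibre of `𝒳`: by Deligne, it is the direct sum
of the `H^j(𝒵_{k̄}, V (m - j))`, `0 ≤ j ≤ m`. -/
def total (m : ℕ) : Sp K := prodSp fun j : Fin (m + 1) => C.H j (F.V (m - j))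

/-- the geometric Frobenius on `H^m` -/
def frobTotal (Φ : FrobeniusAction C) (m : ℕ) : Op (F.total C m) :=
  prodOp _ fun j : Fin (m + 1) => Φ.frob j (F.V (m - j))

/-- the monodromy operator on `H^m` -/
def monodromy (m : ℕ) : Op (F.total C m) :=
  prodOp _ fun j : Fin (m + 1) =>
    C.map j (F.V (m - j)) (F.V (m - j)) (F.N (m - j)) (F.N_mor (m - j))

end Family

end Pool.Agent.TH131.WMF
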