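import Mathlib
import Pool.Agent.TH131.WMF.Defs

set_option autoImplicit false

namespace Pool.Agent.TH131.WMF

open Polynomial

variable {K : Type} [Field K] [CharZero K] {U : Type} [AddCommGroup U] [Module K U]

/-! ### Weights are unique -/

lemma IsWeilNumber.unique {q : ℕ} (hq : 1 < q) {a c : ℤ} {α : AlgebraicClosure K}
    (ha : IsWeilNumber K q a α) (hc : IsWeilNumber K q c α) : a = c := by
  obtain ⟨P, hP0, hPα, hP⟩ := ha
  obtain ⟨Q, hQ0, hQα, hQ⟩ := hc
  have halg : IsAlgebraic ℚ α := ⟨P, hP0, hPα⟩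
  have hint : IsIntegral ℚ α := halg.isIntegral
  have hdeg : (minpoly ℚ α).degree ≠ 0 := (minpoly.degree_pos hint).ne'
  have hdeg' : ((minpoly ℚ α).map (algebraMap ℚ ℂ)).degree ≠ 0 := by
    rwa [degree_map]
  obtain ⟨z, hz⟩ := IsAlgClosed.exists_root _ hdeg'
  have hz' : aeval z (minpoly ℚ α) = 0 := by
    rw [IsRoot.def, eval_map_algebraMap] at hz
    exact hz
  have h1 : aeval z P = 0 := aeval_eq_zero_of_dvd_aeval_eq_zero (minpoly.dvd ℚ α hPα) hz'
  have h2 : aeval z Q = 0 := aeval_eq_zero_of_dvd_aeval_eq_zero (minpoly.dvd ℚ α hQα) hz'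
  have h := (hP z h1).symm.trans (hQ z h2)
  have hinj := (Real.strictMono_rpow_of_base_gt_one (b := (q : ℝ)) (by exact_mod_cast hq)).injective
  have h' := hinj h
  have h'' : (a : ℝ) = (c : ℝ) := by linarith
  exact_mod_cast h''

/-- all roots are Weil numbers of weights at most `a` -/
def WeightLE (K : Type) [Field K] [CharZero K] (q : ℕ) (a : ℤ) (P : K[X]) : Prop :=
  P ≠ 0 ∧ ∀ α : AlgebraicClosure K, aeval α P = 0 → ∃ a' ≤ a, IsWeilNumber K q a' α

lemma WeightLE.coprime {q : ℕ} (hq : 1 < q) {a c : ℤ} (hac : a < c) {R Q : K[X]}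
    (hR : WeightLE K q a R) (hQ : IsWeightPolynomial K q c Q) : IsCoprime R Q := by
  rw [isCoprime_iff_aeval_ne_zero_of_isAlgClosed K (AlgebraicClosure K)]
  intro α
  by_contra h
  push Not at h
  obtain ⟨a', ha', hα⟩ := hR.2 α h.1
  have := hα.unique hq (hQ.2 α h.2)
  omega

lemma isWeightPolynomial_one (q : ℕ) (a : ℤ) : IsWeightPolynomial K q a (1 : K[X]) :=
  ⟨one_ne_zero, fun α hα => by simp at hα⟩

lemma IsWeightPolynomial.mul {q : ℕ} {a : ℤ} {P Q : K[X]} (hP : IsWeightPolynomial K q a P)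
    (hQ : IsWeightPolynomial K q a Q) : IsWeightPolynomial K q a (P * Q) := by
  refine ⟨mul_ne_zero hP.1 hQ.1, fun α hα => ?_⟩
  rw [map_mul, mul_eq_zero] at hα
  exact hα.elim (hP.2 α) (hQ.2 α)

lemma IsWeightPolynomial.prod {ι : Type} {q : ℕ} {a : ℤ} (s : Finset ι) {P : ι → K[X]}
    (hP : ∀ i ∈ s, IsWeightPolynomial K q a (P i)) : IsWeightPolynomial K q a (∏ i ∈ s, P i) := by
  classical
  induction s using Finset.induction with
  | empty => simpa using isWeightPolynomial_one q a
  | insert i s hi ih =>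
    rw [Finset.prod_insert hi]
    exact (hP i (by simp)).mul (ih fun j hj => hP j (by simp [hj]))

/-! ### The weight filtration is unique -/

omit [CharZero K] in
lemma aeval_mem {φ : Module.End K U} {S : Submodule K U} (hS : ∀ x ∈ S, φ x ∈ S) (P : K[X]) :
    ∀ x ∈ S, aeval φ P x ∈ S := by
  intro x hx
  induction P using Polynomial.induction_on' with
  | add p q hp hq => rw [map_add, LinearMap.add_apply]; exact S.add_mem hp hq
  | monomial n c =>
    rw [aeval_monomial, Module.End.mul_apply, Module.algebraMap_end_apply]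
    refine S.smul_mem _ ?_
    clear c
    induction n with
    | zero => simpa using hx
    | succ n ih => rw [pow_succ', Module.End.mul_apply]; exact hS _ ih

lemma killed {q : ℕ} {φ : Module.End K U} {F : ℤ → Submodule K U} (hmono : Monotone F)
    {a₀ : ℤ} (h0 : F a₀ = ⊥) (hF : ∀ a, IsPureOn q a φ (F a) (F (a - 1))) (n : ℕ) :
    ∀ a ≤ a₀ + n, ∀ x ∈ F a, ∃ R : K[X], WeightLE K q a R ∧ aeval φ R x = 0 := by
  induction n with
  | zero =>
    intro a ha x hx
    have : x ∈ F a₀ := hmono (by simpa using ha) hx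
    rw [h0, Submodule.mem_bot] at this
    subst this
    exact ⟨1, ⟨one_ne_zero, fun α hα => by simp at hα⟩, by simp⟩
  | succ n ih =>
    intro a ha x hx
    obtain ⟨P, hP, hPx⟩ := hF a x hx
    obtain ⟨R, hR, hRx⟩ := ih (a - 1) (by push_cast at ha; omega) _ hPx
    refine ⟨R * P, ⟨mul_ne_zero hR.1 hP.1, fun α hα => ?_⟩, ?_⟩
    · rw [map_mul, mul_eq_zero] at hα
      rcases hα with hα | hα
      · obtain ⟨a', ha', h⟩ := hR.2 α hα
        exact ⟨a', by omega, h⟩
      · exact ⟨a, le_rfl, hP.2 α hα⟩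
    · rw [map_mul, Module.End.mul_apply, hRx]

/-- A filtration with pure graded pieces is finer than any other. -/
lemma fil_le {q : ℕ} (hq : 1 < q) {φ : Module.End K U} {F M : ℤ → Submodule K U}
    (hmono : Monotone F) (h0 : ∃ a, F a = ⊥) (hF : ∀ a, IsPureOn q a φ (F a) (F (a - 1)))
    (hmono' : Monotone M) (h1 : ∃ a, M a = ⊤) (hφ : ∀ a, ∀ x ∈ M a, φ x ∈ M a)
    (hM : ∀ a, IsPureOn q a φ (M a) (M (a - 1))) (a : ℤ) : F a ≤ M a := by
  intro x hx
  obtain ⟨a₀, h0⟩ := h0
  obtain ⟨b, h1⟩ := h1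
  obtain ⟨R, hR, hRx⟩ := killed hmono h0 hF (a - a₀).toNat a (by omega) x hx
  have key : ∀ n : ℕ, x ∈ M (a + n) → x ∈ M a := by
    intro n
    induction n with
    | zero => simp
    | succ n ih =>
      intro hxn
      refine ih ?_
      obtain ⟨Q, hQ, hQx⟩ := hM _ x hxn
      obtain ⟨u, v, huv⟩ := hR.coprime hq (c := a + ((n + 1 : ℕ) : ℤ)) (by push_cast; omega) hQ
      have hx' : x = aeval φ u (aeval φ R x) + aeval φ v (aeval φ Q x) := by
        rw [← Module.End.mul_apply, ← Module.End.mul_apply, ← map_mul, ← map_mul,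
          ← LinearMap.add_apply, ← map_add, huv, map_one, Module.End.one_apply]
      rw [hx', hRx, map_zero, zero_add]
      have : a + ((n + 1 : ℕ) : ℤ) - 1 = a + n := by push_cast; ring
      rw [this] at hQx
      exact aeval_mem (hφ _) v _ hQx
  refine key (b - a).toNat ?_
  have : M b ≤ M (a + (b - a).toNat) := hmono' (by omega)
  exact this (h1 ▸ Submodule.mem_top)

/-! ### Products -/

section Pi

variable {ι : Type} (E : ι → Sp K)

omit [CharZero K] in
lemma prodOp_apply (φ : ∀ i, Op (E i)) (x : prodSp E) (i : ι) : prodOp E φ x i = φ i (x i) := rfl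

omit [CharZero K] in
lemma prodOp_pow (φ : ∀ i, Op (E i)) (r : ℕ) (x : prodSp E) (i : ι) :
    (prodOp E φ ^ r) x i = (φ i ^ r) (x i) := by
  induction r generalizing x with
  | zero => simp
  | succ r ih => rw [pow_succ, Module.End.mul_apply, ih, pow_succ, Module.End.mul_apply]; rfl

omit [CharZero K] in
lemma prodOp_aeval (φ : ∀ i, Op (E i)) (P : K[X]) (x : prodSp E) (i : ι) :
    aeval (prodOp E φ) P x i = aeval (φ i) P (x i) := by
  induction P using Polynomial.induction_on' with
  | add p q hp hq =>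
    rw [map_add, map_add, LinearMap.add_apply, LinearMap.add_apply, ← hp, ← hq]
    rfl
  | monomial n c =>
    rw [aeval_monomial, aeval_monomial, Module.End.mul_apply, Module.End.mul_apply,
      Module.algebraMap_end_apply, Module.algebraMap_end_apply, ← prodOp_pow]
    rfl

/-- a product of filtrations -/
def prodFil (M : ∀ i, Submodule K (E i)) : Submodule K (prodSp E) where
  carrier := {x | ∀ i, x i ∈ M i}
  add_mem' hx hy i := (M i).add_mem (hx i) (hy i)
  zero_mem' i := (M i).zero_mem
  smul_mem' c _ hx i := (M i).smul_mem c (hx i)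

theorem mwPure_prod [Finite ι] {q : ℕ} {w : ℤ} (φ N : ∀ i, Op (E i))
    (h : ∀ i, IsMonodromyWeightPure q w (φ i) (N i)) :
    IsMonodromyWeightPure q w (prodOp E φ) (prodOp E N) := by
  classical
  cases nonempty_fintype ι
  choose M hmono hbot htop hN hφ hinj hsurj hpure using h
  choose bot hbot using hbot
  choose top htop using htop
  refine ⟨fun a => prodFil E fun i => M i a, ?_, ?_, ?_, ?_, ?_, ?_, ?_, ?_⟩
  · intro a b hab x hx i
    exact hmono i hab (hx i)
  · by_cases hne : Nonempty ι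
    · refine ⟨Finset.univ.inf' Finset.univ_nonempty bot, ?_⟩
      rw [eq_bot_iff]
      intro x hx
      rw [Submodule.mem_bot]
      funext i
      have := hmono i (Finset.inf'_le bot (Finset.mem_univ i)) (hx i)
      rwa [hbot i, Submodule.mem_bot] at this
    · rw [not_nonempty_iff] at hne
      refine ⟨0, ?_⟩
      rw [eq_bot_iff]
      intro x _
      rw [Submodule.mem_bot]
      funext i
      exact isEmptyElim i
  · by_cases hne : Nonempty ι
    · refine ⟨Finset.univ.sup' Finset.univ_nonempty top, ?_⟩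
      rw [eq_top_iff]
      intro x _ i
      exact hmono i (Finset.le_sup' top (Finset.mem_univ i)) (htop i ▸ Submodule.mem_top)
    · rw [not_nonempty_iff] at hne
      refine ⟨0, ?_⟩
      rw [eq_top_iff]
      intro x _ i
      exact isEmptyElim i
  · exact fun a x hx i => hN i a _ (hx i)
  · exact fun a x hx i => hφ i a _ (hx i)
  · intro r x hx hx' i
    refine hinj i r _ (hx i) ?_
    have := hx' i
    rwa [prodOp_pow] at this
  · intro r y hy
    choose x hx hxy using fun i => hsurj i r (y i) (hy i)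
    have key : ∀ X : prodSp E, (∀ i, X i = x i) → (∀ i, X i ∈ M i r) →
        (prodOp E N ^ r) X - y ∈ prodFil E fun i => M i (-r - 1) := by
      intro X hX _ i
      have h1 := prodOp_pow E N r X i
      have h2 : ((prodOp E N ^ r) X - y : prodSp E) i = (prodOp E N ^ r) X i - y i := rfl
      rw [h2, h1, hX i]
      exact hxy i
    exact ⟨x, hx, key x (fun _ => rfl) hx⟩
  · intro a x hx
    choose P hP hPx using fun i => hpure i a (x i) (hx i)
    refine ⟨∏ i, P i, IsWeightPolynomial.prod _ fun i _ => hP i, fun i => ?_⟩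
    rw [prodOp_aeval, ← Finset.prod_erase_mul _ _ (Finset.mem_univ i), map_mul,
      Module.End.mul_apply]
    exact aeval_mem (hφ i _) _ _ (hPx i)

end Pi

end Pool.Agent.TH131.WMF
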