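import Mathlib
import Pool.Agent.TH131.WMF.Lin

/-!
# Projective semistable schemes of bounded degree: definitions

Fix integers `n` and `d`.

* A *projective SNCL scheme* over a field `κ` is a simple normal crossing log scheme over the
  standard log point with underlying field `κ`, whose underlying scheme is a closed subscheme of
  `ℙ^n_κ` of degree at most `d`.
* The special fibre of a strictly semistable closed subscheme of `ℙ^n_𝒪` of degree at most `d`
  (`𝒪` a discrete valuation ring with residue field `k`) is a projective SNCL scheme over `k`.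
* The projective SNCL schemes are the fibres of one family `𝒴 → B` over a scheme `B` of finite type
  over `ℤ`, and `B` is the image of `Spec A` for a noetherian ring `A` (an affine covering of `B`).

`K ℓ` is the coefficient field `ℚ_ℓ`.
-/

set_option autoImplicit false

namespace Pool.Agent.TH131.WMF

open Polynomial

/-- A vector space with an operator `N` (the monodromy operator) and an increasing filtration `W`
(the weight filtration). -/
structure WN (K : Type) [Field K] extends Sp K where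
  N : Module.End K carrier
  W : ℤ → Submodule K carrier

instance (K : Type) [Field K] : CoeSort (WN K) Type := ⟨fun A => A.toSp⟩

section

variable {K : Type} [Field K]

/-- For all `r ≥ 0` the operator `N ^ r` induces a bijection from the graded piece of `W` in degree
`w + r` to the graded piece of `W` in degree `w - r`. -/
def IsLefschetz (A : WN K) (w : ℤ) : Prop :=
  (∀ r : ℕ, ∀ x ∈ A.W (w + r), (A.N ^ r) x ∈ A.W (w - r - 1) → x ∈ A.W (w + r - 1)) ∧
    ∀ r : ℕ, ∀ y ∈ A.W (w - r), ∃ x ∈ A.W (w + r), (A.N ^ r) x - y ∈ A.W (w - r - 1)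

/-- `A` and `A'` are isomorphic. -/
def IsIso (A A' : WN K) : Prop :=
  ∃ e : A ≃ₗ[K] A', (∀ x, e (A.N x) = A'.N (e x)) ∧ ∀ j x, e x ∈ A'.W j ↔ x ∈ A.W j

end

/-- The family `𝒴 → B` of all projective SNCL schemes: for a point `b` of `Spec A`, `H b ℓ w` is
the `ℓ`-adic Kummer étale cohomology `H^w` of the geometric fibre of `𝒴` over `b`, with its
monodromy operator and its weight filtration. -/
structure LogFamily (K : ℕ → Type) [∀ ℓ, Field (K ℓ)] where
  A : Type
  [ring : CommRing A]
  [noetherian : IsNoetherianRing A]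
  H : PrimeSpectrum A → ∀ ℓ : ℕ, ℕ → WN (K ℓ)

attribute [instance] LogFamily.ring LogFamily.noetherian

section

variable {K : ℕ → Type} [∀ ℓ, Field (K ℓ)]

/-- Proper smooth base change (in log geometry): on a nonempty open subset, which does not depend
on `ℓ`, of the closure of each point `b`, the cohomology `H^w` and its weight filtration are lisse
where `ℓ` is invertible, so there are specialization isomorphisms. -/
def LogFamily.IsLisse (F : LogFamily K) : Prop :=
  ∀ b : PrimeSpectrum F.A, ∃ f ∉ b.asIdeal, ∀ b' : PrimeSpectrum F.A, b ≤ b' → f ∉ b'.asIdeal →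
    ∀ ℓ : ℕ, ℓ.Prime → (ℓ : F.A) ∉ b'.asIdeal → ∀ w, IsIso (F.H b ℓ w) (F.H b' ℓ w)

/-- Hodge theory: over fields of characteristic `0` the weight filtration is the monodromy
filtration. -/
def LogFamily.HodgeTheory (F : LogFamily K) : Prop :=
  ∀ b : PrimeSpectrum F.A, (∀ p : ℕ, p.Prime → (p : F.A) ∉ b.asIdeal) →
    ∀ ℓ : ℕ, ℓ.Prime → ∀ w : ℕ, IsLefschetz (F.H b ℓ w) w

/-- All strictly semistable closed subschemes `X` of degree at most `d` of the projective spaces
`ℙ^n_𝒪` over all henselian discrete valuation rings `𝒪` with finite residue field. -/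
structure SemistableSchemes (F : LogFamily K) where
  Obj : Type
  /-- the residue characteristic of `𝒪` -/
  p : Obj → ℕ
  prime : ∀ X, (p X).Prime
  /-- the number of elements of the residue field -/
  q : Obj → ℕ
  one_lt_q : ∀ X, 1 < q X
  /-- `H^w(X_K̄, ℚ_ℓ)` with its monodromy operator and its weight filtration -/
  coh : Obj → ∀ ℓ : ℕ, ℕ → WN (K ℓ)
  /-- a lift of the geometric Frobenius acts on `H^w(X_K̄, ℚ_ℓ)` -/
  frob : ∀ X ℓ w, Op (coh X ℓ w).toSp
  /-- the point of `B` given by the special fibre of `X` -/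
  pt : Obj → PrimeSpectrum F.A
  p_mem : ∀ X, (p X : F.A) ∈ (pt X).asIdeal
  mono : ∀ X ℓ w, Monotone (coh X ℓ w).W
  bot : ∀ X ℓ w, ∃ a, (coh X ℓ w).W a = ⊥
  top : ∀ X ℓ w, ∃ a, (coh X ℓ w).W a = ⊤
  N_mem : ∀ X ℓ w, ∀ a, ∀ x ∈ (coh X ℓ w).W a, (coh X ℓ w).N x ∈ (coh X ℓ w).W (a - 2)
  frob_mem : ∀ X ℓ w, ∀ a, ∀ x ∈ (coh X ℓ w).W a, frob X ℓ w x ∈ (coh X ℓ w).W a

namespace SemistableSchemes

variable {F : LogFamily K} (𝒮 : SemistableSchemes F)

/-- The cohomology of the geometric generic fibre of `X` is the log cohomology of the special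
fibre (`ℓ` is not the residue characteristic). -/
def Comparison : Prop :=
  ∀ X (ℓ : ℕ), ℓ.Prime → ℓ ≠ 𝒮.p X → ∀ w, IsIso (F.H (𝒮.pt X) ℓ w) (𝒮.coh X ℓ w)

variable [∀ ℓ, CharZero (K ℓ)]

/-- The Weil conjectures: the graded piece of degree `a` of the weight filtration of
`H^w(X_K̄, ℚ_ℓ)` is pure of weight `a`. -/
def WeilConjectures : Prop :=
  ∀ X (ℓ : ℕ), ℓ.Prime → ℓ ≠ 𝒮.p X → ∀ w, ∀ a, IsPureOn (𝒮.q X) a (𝒮.frob X ℓ w)
    ((𝒮.coh X ℓ w).W a) ((𝒮.coh X ℓ w).W (a - 1))

/-- `H^w(X_K̄, ℚ_ℓ)` is mw pure of weight `w`. -/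
def MWPure (X : 𝒮.Obj) (ℓ w : ℕ) : Prop :=
  IsMonodromyWeightPure (𝒮.q X) w (𝒮.frob X ℓ w) (𝒮.coh X ℓ w).N

end SemistableSchemes

end

end Pool.Agent.TH131.WMF
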