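import Mathlib
import Pool.Agent.TH131.WMF.Spread

set_option autoImplicit false

namespace Pool.Agent.TH131.WMF

open Polynomial

section

variable {K : Type} [Field K]

lemma IsIso.pow {A A' : WN K} {e : A ≃ₗ[K] A'} (he : ∀ x, e (A.N x) = A'.N (e x)) (r : ℕ) (x : A) :
    e ((A.N ^ r) x) = (A'.N ^ r) (e x) := by
  induction r generalizing x with
  | zero => simp
  | succ r ih => rw [pow_succ, Module.End.mul_apply, ih, he, pow_succ, Module.End.mul_apply]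

lemma IsIso.symm {A A' : WN K} (h : IsIso A A') : IsIso A' A := by
  obtain ⟨e, he, hW⟩ := h
  refine ⟨e.symm, fun x => ?_, fun j x => ?_⟩
  · apply e.injective
    rw [he, e.apply_symm_apply, e.apply_symm_apply]
  · rw [← hW, e.apply_symm_apply]

lemma IsIso.trans {A A' A'' : WN K} (h : IsIso A A') (h' : IsIso A' A'') : IsIso A A'' := by
  obtain ⟨e, he, hW⟩ := h
  obtain ⟨e', he', hW'⟩ := h'
  refine ⟨e.trans e', fun x => ?_, fun j x => ?_⟩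
  · rw [LinearEquiv.trans_apply, he, he', LinearEquiv.trans_apply]
  · rw [LinearEquiv.trans_apply, hW', hW]

lemma IsIso.lefschetz {A A' : WN K} (h : IsIso A A') {w : ℤ} (hA : IsLefschetz A w) :
    IsLefschetz A' w := by
  obtain ⟨e, he, hW⟩ := h
  have he' : ∀ (r : ℕ) (x : A), e ((A.N ^ r) x) = (A'.N ^ r) (e x) := IsIso.pow he
  refine ⟨fun r x hx hNx => ?_, fun r y hy => ?_⟩
  · obtain ⟨x, rfl⟩ := e.surjective x
    rw [← he', hW] at hNx
    rw [hW] at hx ⊢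
    exact hA.1 r x hx hNx
  · obtain ⟨y, rfl⟩ := e.surjective y
    rw [hW] at hy
    obtain ⟨x, hx, hNx⟩ := hA.2 r y hy
    refine ⟨e x, (hW _ _).2 hx, ?_⟩
    rw [← he', ← map_sub, hW]
    exact hNx

end

/-! ### The weight filtration and the monodromy filtration -/

section

variable {K : Type} [Field K] [CharZero K] {A : WN K} {φ : Module.End K A} {q : ℕ} {w : ℤ}

lemma lefschetz_of_mwPure (hq : 1 < q) (mono : Monotone A.W) (bot : ∃ a, A.W a = ⊥)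
    (top : ∃ a, A.W a = ⊤) (hφ : ∀ a, ∀ x ∈ A.W a, φ x ∈ A.W a)
    (pure : ∀ a, IsPureOn q a φ (A.W a) (A.W (a - 1)))
    (h : IsMonodromyWeightPure q w φ A.N) : IsLefschetz A w := by
  obtain ⟨M, hmono, hbot, htop, hN, hφM, hinj, hsurj, hpure⟩ := h
  have hM : ∀ a, M a = A.W (w + a) := by
    have hFz : ∀ a, IsPureOn q a φ (M (a - w)) (M (a - 1 - w)) := by
      intro a
      have := hpure (a - w)
      rwa [show w + (a - w) = a by ring, show a - w - 1 = a - 1 - w by ring] at this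
    have hFmono : Monotone fun a => M (a - w) := fun a b hab => hmono (by simpa using hab)
    have hFbot : ∃ a, M (a - w) = ⊥ := by
      obtain ⟨a, ha⟩ := hbot
      exact ⟨a + w, by rw [add_sub_cancel_right, ha]⟩
    have hFtop : ∃ a, M (a - w) = ⊤ := by
      obtain ⟨a, ha⟩ := htop
      exact ⟨a + w, by rw [add_sub_cancel_right, ha]⟩
    intro a
    have h1 := fil_le hq hFmono hFbot hFz mono top hφ pure (w + a)
    have h2 := fil_le hq mono bot pure hFmono hFtop (fun a x hx => hφM _ x hx) hFz (w + a)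
    simp only [add_sub_cancel_left] at h1 h2
    exact le_antisymm h1 h2
  refine ⟨fun r x hx hNx => ?_, fun r y hy => ?_⟩
  · rw [show w + (r : ℤ) - 1 = w + (r - 1) by ring, ← hM]
    apply hinj r x
    · rwa [hM]
    · rwa [hM, show w + (-(r : ℤ) - 1) = w - r - 1 by ring]
  · rw [show w - (r : ℤ) = w + -r by ring, ← hM] at hy
    obtain ⟨x, hx, hNx⟩ := hsurj r y hy
    refine ⟨x, by rwa [← hM], ?_⟩
    rwa [show w - (r : ℤ) - 1 = w + (-r - 1) by ring, ← hM]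

omit [CharZero K] in
lemma mwPure_of_lefschetz [CharZero K] (mono : Monotone A.W) (bot : ∃ a, A.W a = ⊥)
    (top : ∃ a, A.W a = ⊤) (hN : ∀ a, ∀ x ∈ A.W a, A.N x ∈ A.W (a - 2))
    (hφ : ∀ a, ∀ x ∈ A.W a, φ x ∈ A.W a)
    (pure : ∀ a, IsPureOn q a φ (A.W a) (A.W (a - 1)))
    (h : IsLefschetz A w) : IsMonodromyWeightPure q w φ A.N := by
  refine ⟨fun a => A.W (w + a), fun a b hab => mono (by simpa using hab), ?_, ?_, ?_, ?_, ?_, ?_,
    ?_⟩
  · obtain ⟨a, ha⟩ := bot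
    refine ⟨a - w, ?_⟩
    change A.W (w + (a - w)) = ⊥
    rw [show w + (a - w) = a by ring, ha]
  · obtain ⟨a, ha⟩ := top
    refine ⟨a - w, ?_⟩
    change A.W (w + (a - w)) = ⊤
    rw [show w + (a - w) = a by ring, ha]
  · intro a x hx
    have h1 : A.N x ∈ A.W (w + a - 2) := hN _ x hx
    rwa [show w + a - 2 = w + (a - 2) by ring] at h1
  · intro a x hx
    exact hφ _ x hx
  · intro r x hx hNx
    have h1 : (A.N ^ r) x ∈ A.W (w + (-(r : ℤ) - 1)) := hNx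
    rw [show w + (-(r : ℤ) - 1) = w - r - 1 by ring] at h1
    have h2 := h.1 r x hx h1
    rwa [show w + (r : ℤ) - 1 = w + (r - 1) by ring] at h2
  · intro r y hy
    have h1 : y ∈ A.W (w + -(r : ℤ)) := hy
    rw [show w + -(r : ℤ) = w - r by ring] at h1
    obtain ⟨x, hx, hNx⟩ := h.2 r y h1
    refine ⟨x, hx, ?_⟩
    change (A.N ^ r) x - y ∈ A.W (w + (-(r : ℤ) - 1))
    rwa [show w + (-(r : ℤ) - 1) = w - r - 1 by ring]
  · intro a
    have h1 := pure (w + a)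
    rwa [show w + a - 1 = w + (a - 1) by ring] at h1

end

/-! ### Noetherian induction -/

/-- Finitely many locally closed strata cover `Spec A`. -/
lemma exists_strata {A : Type} [CommRing A] [IsNoetherianRing A]
    (P : PrimeSpectrum A → A → Prop) (hP : ∀ b : PrimeSpectrum A, ∃ f ∉ b.asIdeal, P b f) :
    ∃ T : Set (PrimeSpectrum A × A), T.Finite ∧ (∀ t ∈ T, P t.1 t.2) ∧
      ∀ b' : PrimeSpectrum A, ∃ t ∈ T, t.1 ≤ b' ∧ t.2 ∉ b'.asIdeal := by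
  have key : ∀ I : Ideal A, ∃ T : Set (PrimeSpectrum A × A), T.Finite ∧ (∀ t ∈ T, P t.1 t.2) ∧
      ∀ b' : PrimeSpectrum A, I ≤ b'.asIdeal → ∃ t ∈ T, t.1 ≤ b' ∧ t.2 ∉ b'.asIdeal := by
    intro I
    induction I using WellFoundedGT.induction with
    | ind I ih =>
      choose f hf hPf using hP
      have hfin : (I.minimalPrimes).Finite := Ideal.finite_minimalPrimes_of_isNoetherianRing A I
      -- the part of the closure of a minimal prime where `f` vanishes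
      have hT : ∀ J : I.minimalPrimes, ∃ T : Set (PrimeSpectrum A × A), T.Finite ∧
          (∀ t ∈ T, P t.1 t.2) ∧
          ∀ b' : PrimeSpectrum A, J.1 ≤ b'.asIdeal → ∃ t ∈ T, t.1 ≤ b' ∧ t.2 ∉ b'.asIdeal := by
        intro J
        let b : PrimeSpectrum A := ⟨J.1, J.2.1.1⟩
        obtain ⟨T, hTf, hTP, hTc⟩ := ih (J.1 ⊔ Ideal.span {f b}) (by
          refine lt_of_le_of_ne (J.2.1.2.trans le_sup_left) fun h => hf b ?_
          have h1 : f b ∈ J.1 ⊔ Ideal.span {f b} :=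
            le_sup_right (a := J.1) (Ideal.subset_span rfl)
          rw [← h] at h1
          exact J.2.1.2 h1)
        refine ⟨insert (b, f b) T, hTf.insert _, ?_, ?_⟩
        · rintro t (rfl | ht)
          · exact hPf b
          · exact hTP t ht
        · intro b' hb'
          by_cases hfb : f b ∈ b'.asIdeal
          · obtain ⟨t, ht, h⟩ := hTc b' (sup_le hb' (by
              rw [Ideal.span_le, Set.singleton_subset_iff]
              exact hfb))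
            exact ⟨t, Set.mem_insert_of_mem _ ht, h⟩
          · exact ⟨(b, f b), Set.mem_insert _ _, hb', hfb⟩
      choose T hTf hTP hTc using hT
      have : Finite I.minimalPrimes := hfin
      refine ⟨⋃ J, T J, Set.finite_iUnion hTf, ?_, ?_⟩
      · intro t ht
        obtain ⟨J, hJ⟩ := Set.mem_iUnion.1 ht
        exact hTP J t hJ
      · intro b' hb'
        obtain ⟨J, hJ, hJb⟩ := Ideal.exists_minimalPrimes_le hb'
        obtain ⟨t, ht, h⟩ := hTc ⟨J, hJ⟩ b' hJb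
        exact ⟨t, Set.mem_iUnion.2 ⟨⟨J, hJ⟩, ht⟩, h⟩
  obtain ⟨T, h1, h2, h3⟩ := key ⊥
  exact ⟨T, h1, h2, fun b' => h3 b' bot_le⟩

/-! ### The theorem -/

variable {K : ℕ → Type} [∀ ℓ, Field (K ℓ)] [∀ ℓ, CharZero (K ℓ)] {F : LogFamily K}

theorem finitely_many (hl : F.IsLisse) (hh : F.HodgeTheory) (𝒮 : SemistableSchemes F)
    (hc : 𝒮.Comparison) (hw : 𝒮.WeilConjectures) :
    ∃ S : Set 𝒮.Obj, S.Finite ∧ ∀ X : 𝒮.Obj,
      (∀ ℓ : ℕ, ℓ.Prime → ℓ ≠ 𝒮.p X → ∀ w, 𝒮.MWPure X ℓ w) ∨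
      ∃ Y ∈ S, 𝒮.p Y = 𝒮.p X ∧
        ∀ ℓ : ℕ, ℓ.Prime → ℓ ≠ 𝒮.p X → ∀ w, 𝒮.MWPure Y ℓ w → 𝒮.MWPure X ℓ w := by
  classical
  have hlX : ∀ (X : 𝒮.Obj) (ℓ : ℕ), ℓ.Prime → ℓ ≠ 𝒮.p X → (ℓ : F.A) ∉ (𝒮.pt X).asIdeal := by
    intro X ℓ hℓ hne hmem
    have hcop : Nat.Coprime ℓ (𝒮.p X) := (Nat.coprime_primes hℓ (𝒮.prime X)).2 hne
    have h1 : ((Nat.gcd ℓ (𝒮.p X) : ℕ) : F.A) ∈ (𝒮.pt X).asIdeal := by
      have h2 := Nat.gcd_eq_gcd_ab ℓ (𝒮.p X)
      have h3 : ((Nat.gcd ℓ (𝒮.p X) : ℕ) : F.A) =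
          (ℓ : F.A) * ((Nat.gcdA ℓ (𝒮.p X) : ℤ) : F.A) +
            (𝒮.p X : F.A) * ((Nat.gcdB ℓ (𝒮.p X) : ℤ) : F.A) := by
        have := congrArg (fun z : ℤ => (z : F.A)) h2
        push_cast at this
        exact this
      rw [h3]
      exact Ideal.add_mem _ (Ideal.mul_mem_right _ _ hmem)
        (Ideal.mul_mem_right _ _ (𝒮.p_mem X))
    rw [hcop, Nat.cast_one] at h1
    exact (𝒮.pt X).2.ne_top ((Ideal.eq_top_iff_one _).2 h1)
  obtain ⟨T, hTf, hTP, hTc⟩ := exists_strata _ hl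
  -- one representative for each stratum
  let rep : PrimeSpectrum F.A × F.A → Set 𝒮.Obj := fun t =>
    if h : ∃ Y : 𝒮.Obj, t.1 ≤ 𝒮.pt Y ∧ t.2 ∉ (𝒮.pt Y).asIdeal then {h.choose} else ∅
  have hrep : ∀ t, (rep t).Finite := by
    intro t
    by_cases h : ∃ Y : 𝒮.Obj, t.1 ≤ 𝒮.pt Y ∧ t.2 ∉ (𝒮.pt Y).asIdeal
    · simp only [rep, dif_pos h]
      exact Set.finite_singleton _
    · simp only [rep, dif_neg h]
      exact Set.finite_empty
  refine ⟨⋃ t ∈ T, rep t, hTf.biUnion fun t _ => hrep t, fun X => ?_⟩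
  obtain ⟨⟨b, f⟩, ht, hbX, hfX⟩ := hTc (𝒮.pt X)
  have hP := hTP _ ht
  simp only at hbX hfX hP
  have toX : ∀ ℓ : ℕ, ℓ.Prime → ℓ ≠ 𝒮.p X → ∀ w, IsIso (F.H b ℓ w) (𝒮.coh X ℓ w) :=
    fun ℓ hℓ hne w => (hP _ hbX hfX ℓ hℓ (hlX X ℓ hℓ hne) w).trans (hc X ℓ hℓ hne w)
  have pureX : ∀ ℓ : ℕ, ℓ.Prime → ℓ ≠ 𝒮.p X → ∀ w : ℕ, IsLefschetz (F.H b ℓ w) w →
      𝒮.MWPure X ℓ w := fun ℓ hℓ hne w h =>
    mwPure_of_lefschetz (𝒮.mono X ℓ w) (𝒮.bot X ℓ w) (𝒮.top X ℓ w) (𝒮.N_mem X ℓ w)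
      (𝒮.frob_mem X ℓ w) (hw X ℓ hℓ hne w) ((toX ℓ hℓ hne w).lefschetz h)
  by_cases h0 : ∀ p : ℕ, p.Prime → (p : F.A) ∉ b.asIdeal
  · exact Or.inl fun ℓ hℓ hne w => pureX ℓ hℓ hne w (hh b h0 ℓ hℓ w)
  · right
    push Not at h0
    obtain ⟨p, hp, hpb⟩ := h0
    have hex : ∃ Y : 𝒮.Obj, b ≤ 𝒮.pt Y ∧ f ∉ (𝒮.pt Y).asIdeal := ⟨X, hbX, hfX⟩
    have hpX : ∀ Z : 𝒮.Obj, b ≤ 𝒮.pt Z → 𝒮.p Z = p := by
      intro Z hZ
      by_contra hne
      exact hlX Z p hp (Ne.symm hne) (hZ hpb)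
    refine ⟨hex.choose, Set.mem_biUnion ht ?_, ?_, ?_⟩
    · have : rep (b, f) = {hex.choose} := dif_pos hex
      rw [this]
      rfl
    · rw [hpX _ hex.choose_spec.1, hpX _ hbX]
    · intro ℓ hℓ hne w hY
      set Y := hex.choose with hYdef
      have hbY : b ≤ 𝒮.pt Y := hex.choose_spec.1
      have hfY : f ∉ (𝒮.pt Y).asIdeal := hex.choose_spec.2
      have hne' : ℓ ≠ 𝒮.p Y := by rw [hpX _ hbY, ← hpX _ hbX]; exact hne
      have toY : IsIso (F.H b ℓ w) (𝒮.coh Y ℓ w) :=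
        (hP _ hbY hfY ℓ hℓ (hlX Y ℓ hℓ hne') w).trans (hc Y ℓ hℓ hne' w)
      have hL : IsLefschetz (𝒮.coh Y ℓ w) w :=
        lefschetz_of_mwPure (𝒮.one_lt_q Y) (𝒮.mono Y ℓ w) (𝒮.bot Y ℓ w) (𝒮.top Y ℓ w)
          (𝒮.frob_mem Y ℓ w) (hw Y ℓ hℓ hne' w) hY
      exact pureX ℓ hℓ hne w (toY.symm.lefschetz hL)

end Pool.Agent.TH131.WMF
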