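import Mathlib
import Pool.Agent.TH131.WMF.SpreadMain

/-!
# Smooth projective varieties of bounded degree over local fields: definitions

Fix integers `n` and `d`.

* By semistable reduction in characteristic `0` (Abramovich–Karu, Abramovich–Temkin–Włodarczyk) and
  spreading out there are an integer `M₀ > 0` and a projective log smooth family `𝒴 → B` such that
  `B` is smooth and projective over `ℤ[1/M₀]` (and not connected), the log structure of `B` is given
  by a divisor `⋃ D i` with simple normal crossings relative to `ℤ[1/M₀]`, and each smooth closed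
  subscheme of degree at most `d` of `ℙ^n_K`, where `K` is a field in which `M₀` is invertible,
  is over a finite extension of `K` the fibre of `𝒴 → B` over a point outside of the divisor.
* If `K` is a local field with valuation ring `𝒪` and `M₀` is invertible in `𝒪`, then this point
  is the generic point of a morphism `Spec 𝒪 → B`, which meets `D i` with some multiplicity `c i`.
* `B` is the image of `Spec A` for a noetherian ring `A` (an affine covering of `B`).

`K ℓ` is the coefficient field `ℚ_ℓ`.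
-/

set_option autoImplicit false

namespace Pool.Agent.TH131.WMF

open Polynomial

/-- A vector space with operators `N i`, the logarithms of the monodromies around the components
`D i` of the boundary, and with an increasing filtration `W`, the weight filtration. -/
structure MWN (K : Type) [Field K] (ι : Type) extends Sp K where
  N : ι → Module.End K carrier
  W : ℤ → Submodule K carrier

instance (K : Type) [Field K] (ι : Type) : CoeSort (MWN K ι) Type := ⟨fun A => A.toSp⟩

section

variable {K : Type} [Field K] {ι : Type}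

/-- The restriction to a curve which meets `D i` with multiplicity `c i`. -/
def MWN.curve [Fintype ι] (A : MWN K ι) (c : ι → ℕ) : WN K :=
  ⟨A.toSp, ∑ i, (c i : K) • A.N i, A.W⟩

/-- `A` and `A'` are isomorphic. -/
def MWN.IsIso (A A' : MWN K ι) : Prop :=
  ∃ e : A ≃ₗ[K] A', (∀ i x, e (A.N i x) = A'.N i (e x)) ∧ ∀ j x, e x ∈ A'.W j ↔ x ∈ A.W j

/-- `W` is a weight filtration of `A` for the Frobenius operator `φ`: the graded piece of degree
`a` is pure of weight `a`. -/
def IsWeightFiltration [CharZero K] (q : ℕ) (A : WN K) (φ : Module.End K A) : Prop :=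
  Monotone A.W ∧ (∃ a, A.W a = ⊥) ∧ (∃ a, A.W a = ⊤) ∧
    (∀ a, ∀ x ∈ A.W a, A.N x ∈ A.W (a - 2)) ∧ (∀ a, ∀ x ∈ A.W a, φ x ∈ A.W a) ∧
    ∀ a, IsPureOn q a φ (A.W a) (A.W (a - 1))

end

/-- The log smooth projective family `𝒴 → B`: for a point `b` of `Spec A`, `H b ℓ w` is the
`ℓ`-adic Kummer étale cohomology `H^w` of the geometric fibre over `b`, with the logarithms of the
monodromies around the `D i` and its weight filtration. -/
structure LogSmoothFamily (K : ℕ → Type) [∀ ℓ, Field (K ℓ)] where
  A : Type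
  [ring : CommRing A]
  [noetherian : IsNoetherianRing A]
  ι : Type
  [fintype : Fintype ι]
  D : ι → Set (PrimeSpectrum A)
  H : PrimeSpectrum A → ∀ ℓ : ℕ, ℕ → MWN (K ℓ) ι

attribute [instance] LogSmoothFamily.ring LogSmoothFamily.noetherian LogSmoothFamily.fintype

section

variable {K : ℕ → Type} [∀ ℓ, Field (K ℓ)]

/-- Proper smooth base change (in log geometry): on a nonempty open subset, which does not depend
on `ℓ`, of the closure of each point `b` the cohomology `H^w` and its weight filtration are lisse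
where `ℓ` is invertible, so there are specialization isomorphisms. -/
def LogSmoothFamily.IsLisse (F : LogSmoothFamily K) : Prop :=
  ∀ b : PrimeSpectrum F.A, ∃ f ∉ b.asIdeal, ∀ b' : PrimeSpectrum F.A, b ≤ b' → f ∉ b'.asIdeal →
    (∀ i, b' ∈ F.D i ↔ b ∈ F.D i) ∧
    ∀ ℓ : ℕ, ℓ.Prime → (ℓ : F.A) ∉ b'.asIdeal → ∀ w, (F.H b ℓ w).IsIso (F.H b' ℓ w)

/-- Hodge theory (Schmid, Steenbrink, Cattani–Kaplan): if the residue field of `b` has
characteristic `0`, then for each curve through `b` which is not contained in the boundary the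
weight filtration is the monodromy filtration. -/
def LogSmoothFamily.HodgeTheory (F : LogSmoothFamily K) : Prop :=
  ∀ b : PrimeSpectrum F.A, (∀ p : ℕ, p.Prime → (p : F.A) ∉ b.asIdeal) →
    ∀ c : F.ι → ℕ, (∀ i, 0 < c i ↔ b ∈ F.D i) →
      ∀ ℓ : ℕ, ℓ.Prime → ∀ w : ℕ, IsLefschetz ((F.H b ℓ w).curve c) w

/-- All smooth closed subschemes `X` of degree at most `d` of the projective spaces `ℙ^n_K` over
all finite extensions `K` of the fields `ℚ_p`; here `K` is enlarged such that `X` is, if
`p` does not divide `M₀`, the fibre of `𝒴 → B` over a `K`-rational point. -/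
structure SmoothVarieties (F : LogSmoothFamily K) where
  M₀ : ℕ
  M₀_pos : 0 < M₀
  Obj : Type
  /-- the residue characteristic of `K` -/
  p : Obj → ℕ
  prime : ∀ X, (p X).Prime
  /-- the number of elements of the residue field of `K` -/
  q : Obj → ℕ
  one_lt_q : ∀ X, 1 < q X
  /-- `H^w(X_K̄, ℚ_ℓ)` with its monodromy operator and its weight filtration -/
  coh : Obj → ∀ ℓ : ℕ, ℕ → WN (K ℓ)
  /-- a lift of the geometric Frobenius acts on `H^w(X_K̄, ℚ_ℓ)` -/
  frob : ∀ X ℓ w, Op (coh X ℓ w).toSp
  /-- the image of the closed point under `Spec 𝒪 → B`, if `p` does not divide `M₀` -/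
  pt : Obj → PrimeSpectrum F.A
  /-- the multiplicities of `Spec 𝒪 → B` along the boundary -/
  c : Obj → F.ι → ℕ
  p_mem : ∀ X, ¬ p X ∣ M₀ → (p X : F.A) ∈ (pt X).asIdeal
  c_pos : ∀ X, ¬ p X ∣ M₀ → ∀ i, 0 < c X i ↔ pt X ∈ F.D i

namespace SmoothVarieties

variable {F : LogSmoothFamily K} (𝒮 : SmoothVarieties F)

/-- The cohomology of the geometric generic fibre of `X` is the restriction of the log cohomology
to `Spec 𝒪`. -/
def Comparison : Prop :=
  ∀ X, ¬ 𝒮.p X ∣ 𝒮.M₀ → ∀ ℓ : ℕ, ℓ.Prime → ℓ ≠ 𝒮.p X → ∀ w,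
    WMF.IsIso ((F.H (𝒮.pt X) ℓ w).curve (𝒮.c X)) (𝒮.coh X ℓ w)

variable [∀ ℓ, CharZero (K ℓ)]

/-- The Weil conjectures: the graded pieces of the weight filtration are pure. -/
def WeilConjectures : Prop :=
  ∀ X, ¬ 𝒮.p X ∣ 𝒮.M₀ → ∀ ℓ : ℕ, ℓ.Prime → ℓ ≠ 𝒮.p X → ∀ w,
    IsWeightFiltration (𝒮.q X) (𝒮.coh X ℓ w) (𝒮.frob X ℓ w)

/-- the monodromy-weight conjecture for `H^w(X_K̄, ℚ_ℓ)` -/
def MWPure (X : 𝒮.Obj) (ℓ w : ℕ) : Prop :=
  IsMonodromyWeightPure (𝒮.q X) w (𝒮.frob X ℓ w) (𝒮.coh X ℓ w).N

end SmoothVarieties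

end

end Pool.Agent.TH131.WMF
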