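import Mathlib
import Pool.Agent.TH131.WMF.Cone

set_option autoImplicit false

namespace Pool.Agent.TH131.WMF

open Polynomial

lemma MWN.IsIso.curve {K : Type} [Field K] {ι : Type} [Fintype ι] {A A' : MWN K ι}
    (h : A.IsIso A') (c : ι → ℕ) : WMF.IsIso (A.curve c) (A'.curve c) := by
  obtain ⟨e, he, hW⟩ := h
  refine ⟨e, fun x => ?_, hW⟩
  change e ((∑ i, (c i : K) • A.N i) x) = (∑ i, (c i : K) • A'.N i) (e x)
  rw [LinearMap.sum_apply, LinearMap.sum_apply, map_sum]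
  refine Finset.sum_congr rfl fun i _ => ?_
  rw [LinearMap.smul_apply, LinearMap.smul_apply, map_smul, he]

lemma not_mem_of_prime {A : Type} [CommRing A] {b : PrimeSpectrum A} {p ℓ : ℕ} (hp : p.Prime)
    (hℓ : ℓ.Prime) (hne : ℓ ≠ p) (hb : (p : A) ∈ b.asIdeal) : (ℓ : A) ∉ b.asIdeal := by
  intro hmem
  have hcop : Nat.Coprime ℓ p := (Nat.coprime_primes hℓ hp).2 hne
  have h1 : ((Nat.gcd ℓ p : ℕ) : A) ∈ b.asIdeal := by
    have h2 := Nat.gcd_eq_gcd_ab ℓ p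
    have h3 : ((Nat.gcd ℓ p : ℕ) : A) =
        (ℓ : A) * ((Nat.gcdA ℓ p : ℤ) : A) + (p : A) * ((Nat.gcdB ℓ p : ℤ) : A) := by
      have := congrArg (fun z : ℤ => (z : A)) h2
      push_cast at this
      exact this
    rw [h3]
    exact Ideal.add_mem _ (Ideal.mul_mem_right _ _ hmem) (Ideal.mul_mem_right _ _ hb)
  rw [hcop, Nat.cast_one] at h1
  exact b.2.ne_top ((Ideal.eq_top_iff_one _).2 h1)

variable {K : ℕ → Type} [∀ ℓ, Field (K ℓ)] [∀ ℓ, CharZero (K ℓ)] {F : LogSmoothFamily K}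

theorem exists_bound (hl : F.IsLisse) (hh : F.HodgeTheory) (𝒮 : SmoothVarieties F)
    (hc : 𝒮.Comparison) (hw : 𝒮.WeilConjectures) :
    ∃ M : ℕ, 0 < M ∧ ∀ X : 𝒮.Obj, ¬ 𝒮.p X ∣ M →
      ∀ ℓ : ℕ, ℓ.Prime → ℓ ≠ 𝒮.p X → ∀ w, 𝒮.MWPure X ℓ w := by
  classical
  obtain ⟨T, hTf, hTP, hTc⟩ := exists_strata _ hl
  -- the characteristic of a stratum
  let ch : PrimeSpectrum F.A × F.A → ℕ := fun t =>
    if h : ∃ p : ℕ, p.Prime ∧ (p : F.A) ∈ t.1.asIdeal then h.choose else 1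
  have hch : ∀ t, 0 < ch t := by
    intro t
    by_cases h : ∃ p : ℕ, p.Prime ∧ (p : F.A) ∈ t.1.asIdeal
    · simp only [ch, dif_pos h]
      exact h.choose_spec.1.pos
    · simp only [ch, dif_neg h]
      exact one_pos
  refine ⟨𝒮.M₀ * ∏ t ∈ hTf.toFinset, ch t,
    Nat.mul_pos 𝒮.M₀_pos (Finset.prod_pos fun t _ => hch t), fun X hX ℓ hℓ hne w => ?_⟩
  have hX0 : ¬ 𝒮.p X ∣ 𝒮.M₀ := fun h => hX (h.mul_right _)
  obtain ⟨t, ht, hbX, hfX⟩ := hTc (𝒮.pt X)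
  have hpX := 𝒮.p_mem X hX0
  have hℓX : (ℓ : F.A) ∉ (𝒮.pt X).asIdeal := not_mem_of_prime (𝒮.prime X) hℓ hne hpX
  have h0 : ∀ p : ℕ, p.Prime → (p : F.A) ∉ t.1.asIdeal := by
    intro p hp hpt
    have hex : ∃ p : ℕ, p.Prime ∧ (p : F.A) ∈ t.1.asIdeal := ⟨p, hp, hpt⟩
    have hcht : ch t = hex.choose := dif_pos hex
    have hchX : ch t = 𝒮.p X := by
      by_contra hne
      rw [hcht] at hne
      exact not_mem_of_prime (𝒮.prime X) hex.choose_spec.1 hne hpX (hbX hex.choose_spec.2)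
    exact hX ((hchX ▸ Finset.dvd_prod_of_mem ch (hTf.mem_toFinset.2 ht)).mul_left _)
  obtain ⟨hD, hiso⟩ := hTP t ht (𝒮.pt X) hbX hfX
  have hL : IsLefschetz ((F.H t.1 ℓ w).curve (𝒮.c X)) w :=
    hh t.1 h0 (𝒮.c X) (fun i => (𝒮.c_pos X hX0 i).trans (hD i)) ℓ hℓ w
  have hL' : IsLefschetz (𝒮.coh X ℓ w) w :=
    (((hiso ℓ hℓ hℓX w).curve (𝒮.c X)).trans (hc X hX0 ℓ hℓ hne w)).lefschetz hL
  obtain ⟨h1, h2, h3, h4, h5, h6⟩ := hw X hX0 ℓ hℓ hne w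
  exact mwPure_of_lefschetz h1 h2 h3 h4 h5 h6 hL'

end Pool.Agent.TH131.WMF
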