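import Mathlib
import Pool.Agent.TH131.WMF.ConeMain

/-!
# Hyodo–Kato cohomology of smooth projective varieties of bounded degree: definitions

Fix integers `n` and `d`.

* By semistable reduction in characteristic `0` (Abramovich–Karu, Abramovich–Temkin–Włodarczyk) and
  spreading out there are an integer `M₀ > 0` and a projective log smooth family `𝒴 → B` such that
  `B` is smooth and projective over `ℤ[1/M₀]` (and not connected), the log structure of `B` is given
  by a divisor `⋃ D i` with simple normal crossings relative to `ℤ[1/M₀]`, and each smooth closed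
  subscheme of degree at most `d` of `ℙ^n_K`, where `K` is a field in which `M₀` is invertible,
  is over a finite extension of `K` the fibre of `𝒴 → B` over a point outside of the divisor.
* If `K` is a finite extension of `ℚ_p`, `p` does not divide `M₀`, `𝒪` is the valuation ring and `k`
  the residue field of `K`, then this point is the generic point of a morphism `Spec 𝒪 → B`, which
  meets `D i` with some multiplicity `c i`. The image `x ∈ B(k)` of the closed point lifts to a
  point of `B` with values in the Witt vectors of `k`, which is contained in the `D i` with `c i > 0`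
  and does not meet the other `D i`, since the intersections of the `D i` are smooth over
  `ℤ[1/M₀]`. This gives a point of `B` with values in the fraction field `K₀` of the Witt vectors.
-/

set_option autoImplicit false

namespace Pool.Agent.TH131.WMF

open Polynomial

/-- The fibres of the log smooth family `𝒴 → B` over fields of characteristic `0`. -/
structure LogDeRham where
  ι : Type
  [fintype : Fintype ι]
  /-- the points of `B` with values in the field `L` -/
  Point : ∀ (L : Type) [Field L], Type
  /-- `D b i` means that `D i` contains the point `b`. -/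
  D : ∀ {L : Type} [Field L], Point L → ι → Prop
  /-- the log de Rham cohomology `H^w` of the fibre over `b`, with the residues along the `D i` and
  the weight filtration -/
  H : ∀ {L : Type} [Field L], Point L → ℕ → MWN L ι

attribute [instance] LogDeRham.fintype

/-- Hodge theory (Schmid, Steenbrink, Cattani–Kaplan) in characteristic `0`: for each curve through
`b` which is not contained in the boundary the weight filtration is the monodromy filtration. -/
def LogDeRham.HodgeTheory (F : LogDeRham) : Prop :=
  ∀ (L : Type) [Field L] [CharZero L] (b : F.Point L) (c : F.ι → ℕ), (∀ i, 0 < c i ↔ F.D b i) →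
    ∀ w : ℕ, IsLefschetz ((F.H b w).curve c) w

/-- All smooth closed subschemes `X` of degree at most `d` of the projective spaces `ℙ^n_K` over
all finite extensions `K` of the fields `ℚ_p`, with their Hyodo–Kato cohomology; here `K` is enlarged
such that `X` is, if `p` does not divide `M₀`, the fibre of `𝒴 → B` over a `K`-rational point. -/
structure HyodoKato (F : LogDeRham) where
  M₀ : ℕ
  M₀_pos : 0 < M₀
  Obj : Type
  /-- the residue characteristic of `K` -/
  p : Obj → ℕ
  /-- the number of elements of the residue field of `K` -/
  q : Obj → ℕ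
  /-- the maximal unramified subfield of `K` -/
  K₀ : Obj → Type
  [field : ∀ X, Field (K₀ X)]
  [charZero : ∀ X, CharZero (K₀ X)]
  /-- `H^w_HK(X)` with its monodromy operator and its weight filtration -/
  coh : ∀ X, ℕ → WN (K₀ X)
  /-- the linear Frobenius operator `φ^f` on `H^w_HK(X)`, where `q = p^f` -/
  frob : ∀ X w, Op (coh X w).toSp
  /-- the multiplicities of `Spec 𝒪 → B` along the boundary -/
  c : Obj → F.ι → ℕ
  /-- the lift of the image of the closed point under `Spec 𝒪 → B` -/
  lift : ∀ X, F.Point (K₀ X)
  c_pos : ∀ X, ¬ p X ∣ M₀ → ∀ i, 0 < c X i ↔ F.D (lift X) i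

attribute [instance] HyodoKato.field HyodoKato.charZero

namespace HyodoKato

variable {F : LogDeRham} (𝒮 : HyodoKato F)

/-- The Hyodo–Kato cohomology of `X` is the log crystalline cohomology of the special fibre, hence
the log de Rham cohomology of the fibre over the lift, with the residue along `Spec 𝒪`. -/
def Comparison : Prop :=
  ∀ X, ¬ 𝒮.p X ∣ 𝒮.M₀ → ∀ w, WMF.IsIso ((F.H (𝒮.lift X) w).curve (𝒮.c X)) (𝒮.coh X w)

/-- The Weil conjectures for crystalline cohomology (Katz–Messing, Mokrane): the graded pieces of
the weight filtration are pure. -/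
def WeilConjectures : Prop :=
  ∀ X, ¬ 𝒮.p X ∣ 𝒮.M₀ → ∀ w, IsWeightFiltration (𝒮.q X) (𝒮.coh X w) (𝒮.frob X w)

/-- the `p`-adic weight-monodromy conjecture for `H^w_HK(X)` -/
def MWPure (X : 𝒮.Obj) (w : ℕ) : Prop :=
  IsMonodromyWeightPure (𝒮.q X) w (𝒮.frob X w) (𝒮.coh X w).N

theorem mwPure (hh : F.HodgeTheory) (hc : 𝒮.Comparison) (hw : 𝒮.WeilConjectures) (X : 𝒮.Obj)
    (hX : ¬ 𝒮.p X ∣ 𝒮.M₀) (w : ℕ) : 𝒮.MWPure X w := by
  obtain ⟨h1, h2, h3, h4, h5, h6⟩ := hw X hX w
  exact mwPure_of_lefschetz h1 h2 h3 h4 h5 h6
    ((hc X hX w).lefschetz (hh _ (𝒮.lift X) (𝒮.c X) (𝒮.c_pos X hX) w))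

end HyodoKato

end Pool.Agent.TH131.WMF
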