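import Mathlib
import Pool.Agent.TH131.WMF.ConeMain

/-!
# Families of smooth projective varieties over open subsets of affine space: definitions

Let `Δ` be a polynomial in `r` variables with integral coefficients and `𝒳 → 𝔸^r_ℚ ∖ {Δ = 0}` a
smooth projective morphism, with a fixed embedding into a projective space; the fibres `𝒳_t` are
smooth closed subschemes of bounded degree of this projective space.
-/

set_option autoImplicit false

namespace Pool.Agent.TH131.WMF

variable {K : ℕ → Type} [∀ ℓ, Field (K ℓ)] {F : LogSmoothFamily K}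

/-- `(A, φ)` and `(A', φ')` are isomorphic, as spaces with a monodromy operator and a Frobenius
operator. -/
def WN.Same {K : Type} [Field K] (A A' : WN K) (φ : Op A.toSp) (φ' : Op A'.toSp) : Prop :=
  ∃ e : A ≃ₗ[K] A', (∀ x, e (A.N x) = A'.N (e x)) ∧ ∀ x, e (φ x) = φ' (e x)

/-- `X` and `Y` have isomorphic cohomology groups, as representations of the Galois group of the
local field. -/
def SmoothVarieties.SameCohomology (𝒮 : SmoothVarieties F) (X Y : 𝒮.Obj) (ℓ w : ℕ) : Prop :=
  (𝒮.coh X ℓ w).Same (𝒮.coh Y ℓ w) (𝒮.frob X ℓ w) (𝒮.frob Y ℓ w)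

/-- The point `t` with coordinates in the ring `R` is not a zero of the polynomial `Δ`. -/
def IsPoint {r : ℕ} (Δ : MvPolynomial (Fin r) ℤ) {R : Type} [CommRing R] (t : Fin r → R) : Prop :=
  MvPolynomial.eval₂ (Int.castRingHom R) t Δ ≠ 0

/-- The fibres over the points `t` with coordinates in `ℤ_p`, for all primes `p`. For each prime `p`
there is one finite extension of `ℚ_p` over which all smooth closed subschemes of bounded degree
of `ℙ^n` over `ℚ_p` are considered (the extensions of `ℚ_p` of bounded degree are contained in one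
finite extension), so `q (𝒳_t)` depends only on `p`. -/
structure AffineFamily (𝒮 : SmoothVarieties F) where
  r : ℕ
  Δ : MvPolynomial (Fin r) ℤ
  fibre : ∀ (p : ℕ) [Fact p.Prime], (Fin r → ℤ_[p]) → 𝒮.Obj
  p_fibre : ∀ (p : ℕ) [Fact p.Prime] (t : Fin r → ℤ_[p]), IsPoint Δ t → 𝒮.p (fibre p t) = p
  q_fibre : ∀ (p : ℕ) [Fact p.Prime] (t t' : Fin r → ℤ_[p]), IsPoint Δ t → IsPoint Δ t' →
    𝒮.q (fibre p t) = 𝒮.q (fibre p t')

namespace AffineFamily

variable {𝒮 : SmoothVarieties F} (𝒳 : AffineFamily 𝒮)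

/-- The cohomology is locally constant as a representation of the Galois group of the local field,
on a neighbourhood which does not depend on `ℓ` and `w` (Kisin, Ito). -/
def IsLocallyConstant : Prop :=
  ∀ (p : ℕ) [Fact p.Prime] (t : Fin 𝒳.r → ℤ_[p]), IsPoint 𝒳.Δ t →
    ∃ n : ℕ, ∀ t' : Fin 𝒳.r → ℤ_[p], IsPoint 𝒳.Δ t' → (∀ i, (p : ℤ_[p]) ^ n ∣ t' i - t i) →
      ∀ ℓ : ℕ, ℓ.Prime → ℓ ≠ p → ∀ w, 𝒮.SameCohomology (𝒳.fibre p t) (𝒳.fibre p t') ℓ w

variable [∀ ℓ, CharZero (K ℓ)]

/-- The monodromy-weight conjecture holds for the fibre over the point `t` with coordinates in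
`ℤ_p`, for all `ℓ` and `w`. -/
def Holds (p : ℕ) [Fact p.Prime] (t : Fin 𝒳.r → ℤ_[p]) : Prop :=
  ∀ ℓ : ℕ, ℓ.Prime → ℓ ≠ p → ∀ w, 𝒮.MWPure (𝒳.fibre p t) ℓ w

/-- The monodromy-weight conjecture holds for the fibre over the point `t` with coordinates in `ℤ`,
at all primes `p`, for all `ℓ` and `w`. -/
def HoldsEverywhere (t : Fin 𝒳.r → ℤ) : Prop :=
  ∀ (p : ℕ) [Fact p.Prime], 𝒳.Holds p fun i => (t i : ℤ_[p])

end AffineFamily

end Pool.Agent.TH131.WMF
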