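import Mathlib
import Pool.Agent.TH131.WMF.Prog

set_option autoImplicit false

namespace Pool.Agent.TH131.WMF

open Polynomial

section Transport

variable {K : Type} [Field K] [CharZero K] {U U' : Type} [AddCommGroup U] [Module K U]
  [AddCommGroup U'] [Module K U']

omit [CharZero K] in
lemma equiv_pow {e : U ≃ₗ[K] U'} {f : Module.End K U} {f' : Module.End K U'}
    (h : ∀ x, e (f x) = f' (e x)) (n : ℕ) (x : U) : e ((f ^ n) x) = (f' ^ n) (e x) := by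
  induction n generalizing x with
  | zero => simp
  | succ n ih => rw [pow_succ, Module.End.mul_apply, ih, h, pow_succ, Module.End.mul_apply]

omit [CharZero K] in
lemma equiv_aeval {e : U ≃ₗ[K] U'} {f : Module.End K U} {f' : Module.End K U'}
    (h : ∀ x, e (f x) = f' (e x)) (P : K[X]) (x : U) : e (aeval f P x) = aeval f' P (e x) := by
  induction P using Polynomial.induction_on' with
  | add p q hp hq => rw [map_add, map_add, LinearMap.add_apply, LinearMap.add_apply, map_add, hp, hq]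
  | monomial n c =>
    rw [aeval_monomial, aeval_monomial, Module.End.mul_apply, Module.End.mul_apply,
      Module.algebraMap_end_apply, Module.algebraMap_end_apply, map_smul, equiv_pow h]

lemma IsMonodromyWeightPure.transport {q : ℕ} {w : ℤ} {φ N : Module.End K U}
    {φ' N' : Module.End K U'} (e : U ≃ₗ[K] U') (hN : ∀ x, e (N x) = N' (e x))
    (hφ : ∀ x, e (φ x) = φ' (e x)) (h : IsMonodromyWeightPure q w φ N) :
    IsMonodromyWeightPure q w φ' N' := by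
  obtain ⟨M, hmono, hbot, htop, hNM, hφM, hinj, hsurj, hpure⟩ := h
  refine ⟨fun a => (M a).map e.toLinearMap, ?_, ?_, ?_, ?_, ?_, ?_, ?_, ?_⟩
  · intro a b hab
    exact Submodule.map_mono (hmono hab)
  · obtain ⟨a, ha⟩ := hbot
    refine ⟨a, ?_⟩
    change (M a).map e.toLinearMap = ⊥
    rw [ha, Submodule.map_bot]
  · obtain ⟨a, ha⟩ := htop
    refine ⟨a, ?_⟩
    change (M a).map e.toLinearMap = ⊤
    rw [ha, Submodule.map_top, LinearEquiv.range]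
  · rintro a _ ⟨x, hx, rfl⟩
    exact ⟨N x, hNM a x hx, hN x⟩
  · rintro a _ ⟨x, hx, rfl⟩
    exact ⟨φ x, hφM a x hx, hφ x⟩
  · rintro r _ ⟨x, hx, rfl⟩ ⟨y, hy, hxy⟩
    refine ⟨x, hinj r x hx ?_, rfl⟩
    have h1 : e y = e ((N ^ r) x) := by
      rw [equiv_pow hN]
      exact hxy
    rw [← e.injective h1]
    exact hy
  · rintro r _ ⟨y, hy, rfl⟩
    obtain ⟨x, hx, hxy⟩ := hsurj r y hy
    refine ⟨e x, ⟨x, hx, rfl⟩, (N ^ r) x - y, hxy, ?_⟩
    change e ((N ^ r) x - y) = _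
    rw [map_sub, equiv_pow hN]
    rfl
  · rintro a _ ⟨x, hx, rfl⟩
    obtain ⟨P, hP, hPx⟩ := hpure a x hx
    exact ⟨P, hP, aeval φ P x, hPx, equiv_aeval hφ P x⟩

end Transport

variable {K : ℕ → Type} [∀ ℓ, Field (K ℓ)] [∀ ℓ, CharZero (K ℓ)] {F : LogSmoothFamily K}
  {𝒮 : SmoothVarieties F}

lemma isPoint_intCast {r : ℕ} {Δ : MvPolynomial (Fin r) ℤ} {p : ℕ} [Fact p.Prime]
    {t : Fin r → ℤ} (h : IsPoint Δ t) : IsPoint Δ fun i => (t i : ℤ_[p]) := by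
  have h1 : MvPolynomial.eval₂ (Int.castRingHom ℤ_[p]) (fun i => (t i : ℤ_[p])) Δ =
      Int.castRingHom ℤ_[p] (MvPolynomial.eval₂ (Int.castRingHom ℤ) t Δ) := by
    rw [MvPolynomial.eval₂_comp_left]
    congr 1
  unfold IsPoint at h ⊢
  rw [h1]
  intro h2
  apply h
  have h3 : ((MvPolynomial.eval₂ (Int.castRingHom ℤ) t Δ : ℤ) : ℤ_[p]) = 0 := h2
  exact_mod_cast h3

theorem progression (hl : F.IsLisse) (hh : F.HodgeTheory) (hc : 𝒮.Comparison)
    (hw : 𝒮.WeilConjectures) (𝒳 : AffineFamily 𝒮) (hk : 𝒳.IsLocallyConstant)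
    (hg : ∀ (p : ℕ) [Fact p.Prime], ∃ t : Fin 𝒳.r → ℤ_[p], IsPoint 𝒳.Δ t ∧ 𝒳.Holds p t) :
    ∃ (m : ℕ) (a : Fin 𝒳.r → ℤ), 0 < m ∧ ∀ t : Fin 𝒳.r → ℤ, (∀ i, t i ≡ a i [ZMOD m]) →
      IsPoint 𝒳.Δ t → 𝒳.HoldsEverywhere t := by
  classical
  obtain ⟨M, hM, hbound⟩ := exists_bound hl hh 𝒮 hc hw
  -- congruences for one prime
  have hloc : ∀ p : ℕ, p ∈ M.primeFactors → ∃ (n : ℕ) (a : Fin 𝒳.r → ℕ),
      ∀ t : Fin 𝒳.r → ℤ, (∀ i, t i ≡ a i [ZMOD (p ^ n : ℕ)]) → IsPoint 𝒳.Δ t →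
        ∀ hp : Fact p.Prime, @AffineFamily.Holds K _ F 𝒮 𝒳 _ p hp fun i => (t i : ℤ_[p]) := by
    intro p hp
    have : Fact p.Prime := ⟨(Nat.mem_primeFactors.1 hp).1⟩
    obtain ⟨t₀, ht₀, hpure⟩ := hg p
    obtain ⟨n, hn⟩ := hk p t₀ ht₀
    refine ⟨n, fun i => PadicInt.appr (t₀ i) n, fun t ht hΔ _ ℓ hℓ hne w => ?_⟩
    have hΔ' : IsPoint 𝒳.Δ (fun i => (t i : ℤ_[p])) := isPoint_intCast hΔ
    obtain ⟨e, heN, heφ⟩ := hn (fun i => (t i : ℤ_[p])) hΔ' (fun i => by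
      have h1 := PadicInt.appr_spec n (t₀ i)
      rw [Ideal.mem_span_singleton] at h1
      have h2 : ((p ^ n : ℕ) : ℤ) ∣ (PadicInt.appr (t₀ i) n : ℤ) - t i := (ht i).dvd
      obtain ⟨c, hc⟩ := h2
      have h3 : (p : ℤ_[p]) ^ n ∣ ((PadicInt.appr (t₀ i) n : ℕ) : ℤ_[p]) - (t i : ℤ_[p]) := by
        refine ⟨(c : ℤ_[p]), ?_⟩
        have := congrArg (fun z : ℤ => (z : ℤ_[p])) hc
        push_cast at this
        exact this
      have h4 : (t i : ℤ_[p]) - t₀ i = -((t₀ i - (PadicInt.appr (t₀ i) n : ℕ)) +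
          (((PadicInt.appr (t₀ i) n : ℕ) : ℤ_[p]) - (t i : ℤ_[p]))) := by ring
      rw [h4, dvd_neg]
      exact dvd_add h1 h3) ℓ hℓ hne w
    have h5 := (hpure ℓ hℓ hne w).transport e heN heφ
    unfold SmoothVarieties.MWPure
    have hq := 𝒳.q_fibre p t₀ (fun i => (t i : ℤ_[p])) ht₀ hΔ'
    rw [hq] at h5
    exact h5
  choose! n a hna using hloc
  let m : ℕ := ∏ p ∈ M.primeFactors, p ^ n p
  have hpos : ∀ p ∈ M.primeFactors, p ^ n p ≠ 0 := fun p hp =>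
    pow_ne_zero _ (Nat.mem_primeFactors.1 hp).1.ne_zero
  have hcop : Set.Pairwise (M.primeFactors : Set ℕ)
      (Function.onFun Nat.Coprime fun p => p ^ n p) := by
    intro p hp p' hp' hne
    exact Nat.Coprime.pow _ _ ((Nat.coprime_primes (Nat.mem_primeFactors.1 hp).1
      (Nat.mem_primeFactors.1 hp').1).2 hne)
  let A : Fin 𝒳.r → ℕ := fun i =>
    (Nat.chineseRemainderOfFinset (fun p => a p i) (fun p => p ^ n p) M.primeFactors hpos hcop).1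
  have hA : ∀ i, ∀ p ∈ M.primeFactors, A i ≡ a p i [MOD p ^ n p] := fun i =>
    (Nat.chineseRemainderOfFinset (fun p => a p i) (fun p => p ^ n p) M.primeFactors hpos hcop).2
  refine ⟨m, fun i => A i, Nat.pos_of_ne_zero (Finset.prod_ne_zero_iff.2 hpos),
    fun t ht hΔ p hp => ?_⟩
  have hΔ' : IsPoint 𝒳.Δ (fun i => (t i : ℤ_[p])) := isPoint_intCast hΔ
  have hpX := 𝒳.p_fibre p _ hΔ'
  by_cases hpM : p ∣ M
  · have hpM' : p ∈ M.primeFactors := Nat.mem_primeFactors.2 ⟨hp.out, hpM, hM.ne'⟩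
    refine hna p hpM' t (fun i => ?_) hΔ hp
    have h1 : t i ≡ A i [ZMOD (p ^ n p : ℕ)] := (ht i).of_dvd (by
      exact_mod_cast Finset.dvd_prod_of_mem (fun p => p ^ n p) hpM')
    exact h1.trans (Int.natCast_modEq_iff.2 (hA i p hpM'))
  · intro ℓ hℓ hne w
    exact hbound _ (by rwa [hpX]) ℓ hℓ (by rwa [hpX]) w

end Pool.Agent.TH131.WMF
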