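import Mathlib
import Pool.Agent.TH131.WMF.HK
import Pool.Agent.TH131.WMF.ProgMain

/-!
# The `p`-adic monodromy-weight conjecture in families

`HKVarieties` describes the smooth closed subschemes of bounded degree of `ℙ^n_K` for all finite
extensions `K` of the fields `ℚ_p`, as in the file on Hyodo–Kato cohomology, but sorted by the
field `K`. `HKFamily` describes the fibres of a smooth projective family `𝒳 → 𝔸^r_ℚ ∖ {Δ = 0}` over
the points with coordinates in `ℤ_p`, for all primes `p`.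
-/

set_option autoImplicit false

namespace Pool.Agent.TH131.WMF

/-- All smooth closed subschemes `X` of degree at most `d` of the projective spaces `ℙ^n_K` over
all finite extensions `K` of the fields `ℚ_p`, with the space `H^w_pst(X)` (the Hyodo–Kato
cohomology, if `X` has semistable reduction); here `K` is enlarged such that the inertia group acts
trivially on `H^w_pst(X)` (this does not change the statement of the conjecture) and such that `X`
is, if `p` does not divide `M₀`, the fibre of `𝒴 → B` over a `K`-rational point. -/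
structure HKVarieties (F : LogDeRham) where
  M₀ : ℕ
  M₀_pos : 0 < M₀
  /-- the fields `K` -/
  Fld : Type
  /-- the residue characteristic of `K` -/
  p : Fld → ℕ
  /-- the number of elements of the residue field of `K` -/
  q : Fld → ℕ
  /-- the maximal unramified subfield of `K` -/
  K₀ : Fld → Type
  [field : ∀ k, Field (K₀ k)]
  [charZero : ∀ k, CharZero (K₀ k)]
  /-- the `X` over `K` -/
  Obj : Fld → Type
  /-- `H^w_pst(X)` with its monodromy operator and its weight filtration -/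
  coh : ∀ {k}, Obj k → ℕ → WN (K₀ k)
  /-- the linear Frobenius operator `φ^f` on `H^w_pst(X)`, where `q = p^f` -/
  frob : ∀ {k} (X : Obj k) w, Op (coh X w).toSp
  /-- the multiplicities of `Spec 𝒪 → B` along the boundary -/
  c : ∀ {k}, Obj k → F.ι → ℕ
  /-- the lift of the image of the closed point under `Spec 𝒪 → B` -/
  lift : ∀ {k}, Obj k → F.Point (K₀ k)
  c_pos : ∀ {k} (X : Obj k), ¬ p k ∣ M₀ → ∀ i, 0 < c X i ↔ F.D (lift X) i

attribute [instance] HKVarieties.field HKVarieties.charZero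

namespace HKVarieties

variable {F : LogDeRham} (𝒮 : HKVarieties F)

/-- The Hyodo–Kato cohomology of `X` is the log crystalline cohomology of the special fibre, hence
the log de Rham cohomology of the fibre over the lift, with the residue along `Spec 𝒪`. -/
def Comparison : Prop :=
  ∀ (k : 𝒮.Fld), ¬ 𝒮.p k ∣ 𝒮.M₀ → ∀ (X : 𝒮.Obj k) (w : ℕ),
    WMF.IsIso ((F.H (𝒮.lift X) w).curve (𝒮.c X)) (𝒮.coh X w)

/-- The Weil conjectures for crystalline cohomology (Katz–Messing, Mokrane): the graded pieces of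
the weight filtration are pure. -/
def WeilConjectures : Prop :=
  ∀ (k : 𝒮.Fld), ¬ 𝒮.p k ∣ 𝒮.M₀ → ∀ (X : 𝒮.Obj k) (w : ℕ),
    IsWeightFiltration (𝒮.q k) (𝒮.coh X w) (𝒮.frob X w)

/-- the `p`-adic monodromy-weight conjecture for `H^w_pst(X)` -/
def MWPure {k : 𝒮.Fld} (X : 𝒮.Obj k) (w : ℕ) : Prop :=
  IsMonodromyWeightPure (𝒮.q k) w (𝒮.frob X w) (𝒮.coh X w).N

theorem mwPure (hh : F.HodgeTheory) (hc : 𝒮.Comparison) (hw : 𝒮.WeilConjectures) {k : 𝒮.Fld}
    (hk : ¬ 𝒮.p k ∣ 𝒮.M₀) (X : 𝒮.Obj k) (w : ℕ) : 𝒮.MWPure X w := by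
  obtain ⟨h1, h2, h3, h4, h5, h6⟩ := hw k hk X w
  exact mwPure_of_lefschetz h1 h2 h3 h4 h5 h6
    ((hc k hk X w).lefschetz (hh _ (𝒮.lift X) (𝒮.c X) (𝒮.c_pos X hk) w))

end HKVarieties

/-- The fibres over the points `t` with coordinates in `ℤ_p`, for all primes `p`. For each prime `p`
there is one finite extension of `ℚ_p`, `base p`, over which all smooth closed subschemes of
bounded degree of `ℙ^n` over `ℚ_p` are considered (the extensions of `ℚ_p` of bounded degree are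
contained in one finite extension). -/
structure HKFamily {F : LogDeRham} (𝒮 : HKVarieties F) where
  r : ℕ
  Δ : MvPolynomial (Fin r) ℤ
  base : ∀ (p : ℕ) [Fact p.Prime], 𝒮.Fld
  p_base : ∀ (p : ℕ) [Fact p.Prime], 𝒮.p (base p) = p
  fibre : ∀ (p : ℕ) [Fact p.Prime], (Fin r → ℤ_[p]) → 𝒮.Obj (base p)

namespace HKFamily

variable {F : LogDeRham} {𝒮 : HKVarieties F} (𝒳 : HKFamily 𝒮)

/-- `H^w_pst(𝒳_t)` with its monodromy operator and its Frobenius operator is locally constant in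
`t` (two fibres which are close to each other have semistable hypercoverings with the same
reductions). -/
def IsLocallyConstant : Prop :=
  ∀ (p : ℕ) [Fact p.Prime] (t : Fin 𝒳.r → ℤ_[p]), IsPoint 𝒳.Δ t →
    ∃ n : ℕ, ∀ t' : Fin 𝒳.r → ℤ_[p], IsPoint 𝒳.Δ t' → (∀ i, (p : ℤ_[p]) ^ n ∣ t' i - t i) →
      ∀ w, (𝒮.coh (𝒳.fibre p t) w).Same (𝒮.coh (𝒳.fibre p t') w)
        (𝒮.frob (𝒳.fibre p t) w) (𝒮.frob (𝒳.fibre p t') w)

/-- The `p`-adic monodromy-weight conjecture holds for the fibre over the point `t` with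
coordinates in `ℤ_p`, for all `w`. -/
def Holds (p : ℕ) [Fact p.Prime] (t : Fin 𝒳.r → ℤ_[p]) : Prop :=
  ∀ w, 𝒮.MWPure (𝒳.fibre p t) w

/-- The `p`-adic monodromy-weight conjecture holds for the fibre over the point `t` with
coordinates in `ℤ`, at all primes `p`, for all `w`. -/
def HoldsEverywhere (t : Fin 𝒳.r → ℤ) : Prop :=
  ∀ (p : ℕ) [Fact p.Prime], 𝒳.Holds p fun i => (t i : ℤ_[p])

end HKFamily

/-- The Chinese remainder theorem: a property of `p`-adic points which holds for all points outside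
of finitely many `p`, and on some ball for each `p`, holds on a residue class at all `p`. -/
theorem residueClass {r : ℕ} (Δ : MvPolynomial (Fin r) ℤ) {M : ℕ} (hM : 0 < M)
    (H : ∀ (p : ℕ) [Fact p.Prime], (Fin r → ℤ_[p]) → Prop)
    (hgood : ∀ (p : ℕ) [Fact p.Prime], ¬ p ∣ M → ∀ t, IsPoint Δ t → H p t)
    (hball : ∀ (p : ℕ) [Fact p.Prime], ∃ (t : Fin r → ℤ_[p]) (n : ℕ), ∀ t', IsPoint Δ t' →
      (∀ i, (p : ℤ_[p]) ^ n ∣ t' i - t i) → H p t') :
    ∃ (m : ℕ) (a : Fin r → ℤ), 0 < m ∧ ∀ t : Fin r → ℤ, (∀ i, t i ≡ a i [ZMOD m]) →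
      IsPoint Δ t → ∀ (p : ℕ) [Fact p.Prime], H p fun i => (t i : ℤ_[p]) := by
  classical
  have hloc : ∀ p : ℕ, p ∈ M.primeFactors → ∃ (n : ℕ) (a : Fin r → ℕ),
      ∀ t : Fin r → ℤ, (∀ i, t i ≡ a i [ZMOD (p ^ n : ℕ)]) → IsPoint Δ t →
        ∀ hp : Fact p.Prime, @H p hp fun i => (t i : ℤ_[p]) := by
    intro p hp
    have : Fact p.Prime := ⟨(Nat.mem_primeFactors.1 hp).1⟩
    obtain ⟨t₀, n, hn⟩ := hball p
    refine ⟨n, fun i => PadicInt.appr (t₀ i) n, fun t ht hΔ _ => ?_⟩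
    refine hn (fun i => (t i : ℤ_[p])) (isPoint_intCast hΔ) (fun i => ?_)
    have h1 := PadicInt.appr_spec n (t₀ i)
    rw [Ideal.mem_span_singleton] at h1
    have h2 : ((p ^ n : ℕ) : ℤ) ∣ (PadicInt.appr (t₀ i) n : ℤ) - t i := (ht i).dvd
    obtain ⟨c, hc⟩ := h2
    have h3 : (p : ℤ_[p]) ^ n ∣ ((PadicInt.appr (t₀ i) n : ℕ) : ℤ_[p]) - (t i : ℤ_[p]) := by
      refine ⟨(c : ℤ_[p]), ?_⟩
      have := congrArg (fun z : ℤ => (z : ℤ_[p])) hc
      push_cast at this
      exact this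
    have h4 : (t i : ℤ_[p]) - t₀ i = -((t₀ i - (PadicInt.appr (t₀ i) n : ℕ)) +
        (((PadicInt.appr (t₀ i) n : ℕ) : ℤ_[p]) - (t i : ℤ_[p]))) := by ring
    rw [h4, dvd_neg]
    exact dvd_add h1 h3
  choose! n a hna using hloc
  have hpos : ∀ p ∈ M.primeFactors, p ^ n p ≠ 0 := fun p hp =>
    pow_ne_zero _ (Nat.mem_primeFactors.1 hp).1.ne_zero
  have hcop : Set.Pairwise (M.primeFactors : Set ℕ)
      (Function.onFun Nat.Coprime fun p => p ^ n p) := by
    intro p hp p' hp' hne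
    exact Nat.Coprime.pow _ _ ((Nat.coprime_primes (Nat.mem_primeFactors.1 hp).1
      (Nat.mem_primeFactors.1 hp').1).2 hne)
  let A : Fin r → ℕ := fun i =>
    (Nat.chineseRemainderOfFinset (fun p => a p i) (fun p => p ^ n p) M.primeFactors hpos hcop).1
  have hA : ∀ i, ∀ p ∈ M.primeFactors, A i ≡ a p i [MOD p ^ n p] := fun i =>
    (Nat.chineseRemainderOfFinset (fun p => a p i) (fun p => p ^ n p) M.primeFactors hpos hcop).2
  refine ⟨∏ p ∈ M.primeFactors, p ^ n p, fun i => A i,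
    Nat.pos_of_ne_zero (Finset.prod_ne_zero_iff.2 hpos), fun t ht hΔ p hp => ?_⟩
  by_cases hpM : p ∣ M
  · have hpM' : p ∈ M.primeFactors := Nat.mem_primeFactors.2 ⟨hp.out, hpM, hM.ne'⟩
    refine hna p hpM' t (fun i => ?_) hΔ hp
    have h1 : t i ≡ A i [ZMOD (p ^ n p : ℕ)] := (ht i).of_dvd (by
      exact_mod_cast Finset.dvd_prod_of_mem (fun p => p ^ n p) hpM')
    exact h1.trans (Int.natCast_modEq_iff.2 (hA i p hpM'))
  · exact hgood p hpM _ (isPoint_intCast hΔ)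

theorem HKFamily.progression {F : LogDeRham} (hh : F.HodgeTheory) {𝒮 : HKVarieties F}
    (hc : 𝒮.Comparison) (hw : 𝒮.WeilConjectures) (𝒳 : HKFamily 𝒮) (hk : 𝒳.IsLocallyConstant)
    (hg : ∀ (p : ℕ) [Fact p.Prime], ∃ t : Fin 𝒳.r → ℤ_[p], IsPoint 𝒳.Δ t ∧ 𝒳.Holds p t) :
    ∃ (m : ℕ) (a : Fin 𝒳.r → ℤ), 0 < m ∧ ∀ t : Fin 𝒳.r → ℤ, (∀ i, t i ≡ a i [ZMOD m]) →
      IsPoint 𝒳.Δ t → 𝒳.HoldsEverywhere t := by
  refine residueClass 𝒳.Δ 𝒮.M₀_pos (fun p _ t => 𝒳.Holds p t) ?_ ?_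
  · intro p _ hp t _ w
    exact 𝒮.mwPure hh hc hw (by rwa [𝒳.p_base p]) _ w
  · intro p _
    obtain ⟨t₀, ht₀, hpure⟩ := hg p
    obtain ⟨n, hn⟩ := hk p t₀ ht₀
    refine ⟨t₀, n, fun t' ht' hd w => ?_⟩
    obtain ⟨e, heN, heφ⟩ := hn t' ht' hd w
    exact (hpure w).transport e heN heφ

end Pool.Agent.TH131.WMF
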