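import Mathlib
import Pool.Agent.TH131.WMF.Lin

set_option autoImplicit false

namespace Pool.Agent.TH131.WMF

open Polynomial

/-! ### Linear algebra -/

lemma aeval_comm {K : Type} [Field K] {U U' : Type} [AddCommGroup U] [Module K U]
    [AddCommGroup U'] [Module K U'] (f : U →ₗ[K] U') (φ : Module.End K U) (φ' : Module.End K U')
    (h : ∀ x, f (φ x) = φ' (f x)) (P : K[X]) (x : U) : f (aeval φ P x) = aeval φ' P (f x) := by
  induction P using Polynomial.induction_on' with
  | add p q hp hq => rw [map_add, map_add, LinearMap.add_apply, LinearMap.add_apply, map_add,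
      hp, hq]
  | monomial n c =>
    rw [aeval_monomial, aeval_monomial, Module.End.mul_apply, Module.End.mul_apply,
      Module.algebraMap_end_apply, Module.algebraMap_end_apply, map_smul]
    congr 1
    induction n generalizing x with
    | zero => simp
    | succ n ih => rw [pow_succ, Module.End.mul_apply, ih, h, pow_succ, Module.End.mul_apply]

section

variable {B : Base} {K : Type} [Field K] {C : Cohomology B K} {j : ℕ} {A A' A'' : Sheaf B K}

lemma isMor_id : IsMor (LinearMap.id : A →ₗ[K] A) := fun _ _ _ => rfl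

lemma hmap_comp (f : A →ₗ[K] A') (hf) (g : A' →ₗ[K] A'') (hg) (h : A →ₗ[K] A'') (hh)
    (e : ∀ v, g (f v) = h v) (x) :
    C.map j A' A'' g hg (C.map j A A' f hf x) = C.map j A A'' h hh x := by
  obtain rfl : g.comp f = h := LinearMap.ext e
  exact (C.map_comp j A A' A'' f g hf hg hh x).symm

lemma hmap_id (f : A →ₗ[K] A) (hf) (e : ∀ v, f v = v) (x) : C.map j A A f hf x = x := by
  obtain rfl : f = LinearMap.id := LinearMap.ext e
  exact C.map_id j A hf x

lemma hmap_add (f g h : A →ₗ[K] A') (hf) (hg) (hh) (e : ∀ v, h v = f v + g v) (x) :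
    C.map j A A' h hh x = C.map j A A' f hf x + C.map j A A' g hg x := by
  obtain rfl : h = f + g := LinearMap.ext e
  exact C.map_add j A A' f g hf hg hh x

lemma hmap_zero (f : A →ₗ[K] A') (hf) (e : ∀ v, f v = 0) (x) :
    C.map j A A' f hf x = 0 := by
  have h := hmap_add (C := C) (j := j) f f f hf hf hf (fun v => by rw [e, add_zero]) x
  simpa using h

/-! ### Subquotients -/

/-- a subsheaf -/
abbrev subSh (A : Sheaf B K) (S : Submodule K A) (hS : ∀ w, Stable S w) : Sheaf B K where
  carrier := S
  act w := (A.act w).restrict (hS w)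
  act_one := LinearMap.ext fun v => Subtype.ext (LinearMap.congr_fun A.act_one v.1)
  act_mul w w' := LinearMap.ext fun v => Subtype.ext (LinearMap.congr_fun (A.act_mul w w') v.1)

lemma quoStable (A : Sheaf B K) (S T : Submodule K A) (hS : ∀ w, Stable S w)
    (hT : ∀ w, Stable T w) (w : B.W) :
    S.submoduleOf T ≤ (S.submoduleOf T).comap ((subSh A T hT).act w) := by
  intro x hx
  exact hS w _ hx

/-- a subquotient -/
abbrev quoSh (A : Sheaf B K) (S T : Submodule K A) (hS : ∀ w, Stable S w)
    (hT : ∀ w, Stable T w) : Sheaf B K where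
  carrier := T ⧸ S.submoduleOf T
  act w := Submodule.mapQ _ _ ((subSh A T hT).act w) (quoStable A S T hS hT w)
  act_one := by
    refine LinearMap.ext fun v => ?_
    obtain ⟨v, rfl⟩ := Submodule.mkQ_surjective _ v
    rw [Submodule.mkQ_apply, Submodule.mapQ_apply, (subSh A T hT).act_one]
    rfl
  act_mul w w' := by
    refine LinearMap.ext fun v => ?_
    obtain ⟨v, rfl⟩ := Submodule.mkQ_surjective _ v
    rw [Submodule.mkQ_apply, Submodule.mapQ_apply, (subSh A T hT).act_mul]
    rfl

lemma lisse_subSh (L : LisseSheaves B K) (hA : L.Lisse A) (S : Submodule K A)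
    (hS : ∀ w, Stable S w) : L.Lisse (subSh A S hS) :=
  L.sub (subSh A S hS) A S.subtype (fun _ _ => rfl) Subtype.val_injective hA

lemma lisse_quoSh (L : LisseSheaves B K) (hA : L.Lisse A) (S T : Submodule K A)
    (hS : ∀ w, Stable S w) (hT : ∀ w, Stable T w) : L.Lisse (quoSh A S T hS hT) :=
  L.quotient (subSh A T hT) (quoSh A S T hS hT) (S.submoduleOf T).mkQ (fun _ _ => rfl)
    (Submodule.mkQ_surjective _) (lisse_subSh L hA T hT)

end

end Pool.Agent.TH131.WMF
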