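import Mathlib
import Pool.Agent.TH131.WMF.Fun

set_option autoImplicit false

namespace Pool.Agent.TH131.WMF

open Polynomial

variable {B : Base} {K : Type} [Field K] {C : Cohomology B K} {j : ℕ} {V : Sheaf B K}

section Pair

variable {S T : Submodule K V} (hS : ∀ w, Stable S w) (hT : ∀ w, Stable T w)

lemma incl_mor : IsMor (A := subSh V T hT) (A' := V) T.subtype := fun _ _ _ => rfl

lemma inc_mor (hST : S ≤ T) :
    IsMor (A := subSh V S hS) (A' := subSh V T hT) (Submodule.inclusion hST) :=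
  fun _ _ _ => rfl

lemma mkQ_mor : IsMor (A := subSh V T hT) (A' := quoSh V S T hS hT) (S.submoduleOf T).mkQ :=
  fun _ _ _ => rfl

variable (C) in
/-- the map on cohomology given by the inclusion of a subsheaf `T` -/
abbrev hincl (j : ℕ) (V : Sheaf B K) (T : Submodule K V) (hT : ∀ w, Stable T w) :
    C.H j (subSh V T hT) →ₗ[K] C.H j V :=
  C.map j (subSh V T hT) V T.subtype (incl_mor hT)

variable (C) in
/-- the map on cohomology given by an inclusion of subsheaves -/
abbrev hinc (j : ℕ) (hST : S ≤ T) : C.H j (subSh V S hS) →ₗ[K] C.H j (subSh V T hT) :=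
  C.map j (subSh V S hS) (subSh V T hT) (Submodule.inclusion hST) (inc_mor hS hT hST)

variable (C) in
/-- the map on cohomology given by the projection to a subquotient -/
abbrev hquo (j : ℕ) : C.H j (subSh V T hT) →ₗ[K] C.H j (quoSh V S T hS hT) :=
  C.map j (subSh V T hT) (quoSh V S T hS hT) (S.submoduleOf T).mkQ (mkQ_mor hS hT)

lemma hincl_hinc (hST : S ≤ T) (x) :
    hincl C j V T hT (hinc C hS hT j hST x) = hincl C j V S hS x :=
  hmap_comp (A := subSh V S hS) (A' := subSh V T hT) (A'' := V) _ _ _ _ _ _ (fun _ => rfl) x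

lemma hquo_hinc (hST : S ≤ T) (x) : hquo C hS hT j (hinc C hS hT j hST x) = 0 := by
  have h0 : IsMor (A := subSh V S hS) (A' := quoSh V S T hS hT)
      (0 : S →ₗ[K] (T ⧸ S.submoduleOf T)) := fun g _ v => by simp
  have h1 := hmap_comp (C := C) (j := j) (A := subSh V S hS) (A' := subSh V T hT)
    (A'' := quoSh V S T hS hT) (Submodule.inclusion hST) (inc_mor hS hT hST)
    (S.submoduleOf T).mkQ (mkQ_mor hS hT) (0 : S →ₗ[K] (T ⧸ S.submoduleOf T)) h0
    (fun v => (Submodule.Quotient.mk_eq_zero _).2 v.2) x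
  exact h1.trans (hmap_zero _ _ (fun _ => rfl) x)

lemma hincl_frob (Φ : FrobeniusAction C) (x) : hincl C j V T hT (Φ.frob j (subSh V T hT) x)
    = Φ.frob j V (hincl C j V T hT x) :=
  Φ.map_frob j (subSh V T hT) V T.subtype (incl_mor hT) (fun _ => rfl) x

lemma hquo_frob (Φ : FrobeniusAction C) (x) : hquo C hS hT j (Φ.frob j (subSh V T hT) x)
    = Φ.frob j (quoSh V S T hS hT) (hquo C hS hT j x) :=
  Φ.map_frob j (subSh V T hT) (quoSh V S T hS hT) (S.submoduleOf T).mkQ (mkQ_mor hS hT)
    (fun _ => rfl) x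

/-- the complement splits the inclusion of a subsheaf -/
lemma exists_retraction (ss : Semisimple V) :
    ∃ r : V →ₗ[K] S, (∀ v : S, r v = v) ∧ IsMor (A := V) (A' := subSh V S hS) r := by
  obtain ⟨D, hD, hSD⟩ := ss S (fun g _ => hS g)
  refine ⟨S.projectionOnto D hSD, fun v => ?_, fun g hg v => ?_⟩
  · simp
  · obtain ⟨s, c, rfl⟩ : ∃ s : S, ∃ c : D, (s : V) + c = v := by
      have : v ∈ S ⊔ D := hSD.sup_eq_top ▸ Submodule.mem_top
      obtain ⟨s, hs, c, hc, h⟩ := Submodule.mem_sup.1 this
      exact ⟨⟨s, hs⟩, ⟨c, hc⟩, h⟩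
    have h1 : V.act g (s : V) ∈ S := hS g _ s.2
    have h2 : V.act g (c : V) ∈ D := hD g hg _ c.2
    rw [map_add, map_add, map_add, Submodule.projectionOnto_apply_left,
      Submodule.projectionOnto_apply_of_mem_right hSD c.2,
      Submodule.projectionOnto_apply_of_mem_right hSD h2,
      Submodule.projectionOnto_apply_of_mem_left hSD h1, add_zero, add_zero]
    rfl

lemma hincl_injective (ss : Semisimple V) : Function.Injective (hincl C j V S hS) := by
  obtain ⟨r, hr, hrG⟩ := exists_retraction hS ss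
  intro x y hxy
  have key : ∀ x, C.map j V (subSh V S hS) r hrG (hincl C j V S hS x) = x := by
    intro x
    have h1 := hmap_comp (C := C) (j := j) (A := subSh V S hS) (A' := V) (A'' := subSh V S hS)
      S.subtype (incl_mor hS) r hrG LinearMap.id isMor_id hr x
    exact h1.trans (hmap_id _ _ (fun _ => rfl) x)
  rw [← key x, ← key y, hxy]

lemma exists_section (hST : S ≤ T) (ss : Semisimple V) :
    ∃ (r : T →ₗ[K] S) (s : (T ⧸ S.submoduleOf T) →ₗ[K] T),
      IsMor (A := subSh V T hT) (A' := subSh V S hS) r ∧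
      IsMor (A := quoSh V S T hS hT) (A' := subSh V T hT) s ∧
      (∀ v, (S.submoduleOf T).mkQ (s v) = v) ∧
      ∀ v, v = Submodule.inclusion hST (r v) + s ((S.submoduleOf T).mkQ v) := by
  obtain ⟨r, hr, hrG⟩ := exists_retraction hS ss
  have hkill : S.submoduleOf T ≤
      LinearMap.ker (LinearMap.id - (Submodule.inclusion hST).comp (r.comp T.subtype)) := by
    intro x hx
    rw [LinearMap.mem_ker]
    have h1 : r x.1 = ⟨x.1, hx⟩ := hr ⟨x.1, hx⟩
    apply Subtype.ext
    simp [h1]
  have hs : ∀ v, (S.submoduleOf T).liftQ _ hkill ((S.submoduleOf T).mkQ v)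
      = v - Submodule.inclusion hST (r v.1) := fun v => rfl
  refine ⟨r.comp T.subtype, (S.submoduleOf T).liftQ _ hkill, ?_, ?_, ?_, ?_⟩
  · intro g hg v
    exact hrG g hg v.1
  · intro g hg v
    obtain ⟨v, rfl⟩ := Submodule.mkQ_surjective _ v
    have h0 := mkQ_mor hS hT g hg v
    rw [← h0, hs, hs]
    have h1 : r (V.act g v.1) = (subSh V S hS).act g (r v.1) := hrG g hg v.1
    rw [map_sub]
    congr 1
    have h2 : r ((subSh V T hT).act g v : T).1 = (subSh V S hS).act g (r v.1) := h1
    rw [h2]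
    rfl
  · intro v
    obtain ⟨v, rfl⟩ := Submodule.mkQ_surjective _ v
    rw [hs, map_sub, sub_eq_self]
    exact (Submodule.Quotient.mk_eq_zero _).2 (r v.1).2
  · intro v
    rw [hs]
    simp

lemma hquo_exact (hST : S ≤ T) (ss : Semisimple V) (y) (hy : hquo C hS hT j y = 0) :
    ∃ y', hinc C hS hT j hST y' = y := by
  obtain ⟨r, s, hr, hs, -, h⟩ := exists_section hS hT hST ss
  refine ⟨C.map j (subSh V T hT) (subSh V S hS) r hr y, ?_⟩
  have h0 := hmap_id (C := C) (j := j) (A := subSh V T hT) LinearMap.id isMor_id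
    (fun _ => rfl) y
  have hir : IsMor (A := subSh V T hT) (A' := subSh V T hT)
      ((Submodule.inclusion hST).comp r) := by
    intro g hg v
    have := hr g hg v
    rw [LinearMap.comp_apply, this]
    rfl
  have hsp : IsMor (A := subSh V T hT) (A' := subSh V T hT)
      (s.comp (S.submoduleOf T).mkQ) := by
    intro g hg v
    have := mkQ_mor hS hT g hg v
    rw [LinearMap.comp_apply, this]
    exact hs g hg _
  have h1 := hmap_add (C := C) (j := j) (A := subSh V T hT) (A' := subSh V T hT)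
    ((Submodule.inclusion hST).comp r) (s.comp (S.submoduleOf T).mkQ) LinearMap.id hir hsp
    isMor_id (fun v => h v) y
  rw [h0] at h1
  have h2 := hmap_comp (C := C) (j := j) (A := subSh V T hT) (A' := subSh V S hS)
    (A'' := subSh V T hT) r hr (Submodule.inclusion hST) (inc_mor hS hT hST)
    ((Submodule.inclusion hST).comp r) hir (fun _ => rfl) y
  have h3 := hmap_comp (C := C) (j := j) (A := subSh V T hT) (A' := quoSh V S T hS hT)
    (A'' := subSh V T hT) (S.submoduleOf T).mkQ (mkQ_mor hS hT) s hs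
    (s.comp (S.submoduleOf T).mkQ) hsp (fun _ => rfl) y
  have hy' : C.map j (subSh V T hT) (quoSh V S T hS hT) (S.submoduleOf T).mkQ
    (mkQ_mor hS hT) y = 0 := hy
  rw [hy', map_zero] at h3
  rw [← h3, add_zero] at h1
  exact h2.trans h1.symm

lemma hquo_surjective (hST : S ≤ T) (ss : Semisimple V) :
    Function.Surjective (hquo C hS hT j) := by
  obtain ⟨r, s, hr, hs, h, -⟩ := exists_section hS hT hST ss
  intro u
  refine ⟨C.map j (quoSh V S T hS hT) (subSh V T hT) s hs u, ?_⟩
  have h1 := hmap_comp (C := C) (j := j) (A := quoSh V S T hS hT) (A' := subSh V T hT)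
    (A'' := quoSh V S T hS hT) s hs (S.submoduleOf T).mkQ (mkQ_mor hS hT) LinearMap.id isMor_id
    h u
  exact h1.trans (hmap_id _ _ (fun _ => rfl) u)

end Pair

end Pool.Agent.TH131.WMF
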