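import Mathlib
import Pool.Agent.TH131.WMF.Main

set_option autoImplicit false

namespace Pool.Agent.TH131.WMF

open Polynomial

variable {B : Base} {K : Type} [Field K] {C : Cohomology B K} {j : ℕ} {V : Sheaf B K}

section

variable {S T S' T' : Submodule K V} (hS : ∀ w, Stable S w) (hT : ∀ w, Stable T w)
  (hS' : ∀ w, Stable S' w) (hT' : ∀ w, Stable T' w) (f : Module.End K V) (hf : IsMor f)
  (hfT : ∀ x ∈ T, f x ∈ T')

include hf in
lemma restrict_mor : IsMor (A := subSh V T hT) (A' := subSh V T' hT') (f.restrict hfT) :=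
  fun g hg v => Subtype.ext (hf g hg v.1)

lemma hincl_restrict (x) : C.map j V V f hf (hincl C j V T hT x) = hincl C j V T' hT'
    (C.map j (subSh V T hT) (subSh V T' hT') (f.restrict hfT)
      (restrict_mor hT hT' f hf hfT) x) := by
  have hc : IsMor (A := subSh V T hT) (A' := V) (f.comp T.subtype) := fun g hg v => hf g hg v.1
  have h1 := hmap_comp (C := C) (j := j) (A := subSh V T hT) (A' := subSh V T' hT') (A'' := V)
    (f.restrict hfT) (restrict_mor hT hT' f hf hfT) T'.subtype (incl_mor hT')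
    (f.comp T.subtype) hc (fun _ => rfl) x
  have h2 := hmap_comp (C := C) (j := j) (A := subSh V T hT) (A' := V) (A'' := V)
    T.subtype (incl_mor hT) f hf (f.comp T.subtype) hc (fun _ => rfl) x
  exact h2.trans h1.symm

include hfT in
theorem range_iso (hST : S ≤ T) (hST' : S' ≤ T') (ss : Semisimple V)
    (hinj : ∀ x ∈ T, f x ∈ S' → x ∈ S) (hsurj : ∀ y ∈ T', ∃ x ∈ T, f x - y ∈ S')
    (hfS : ∀ x ∈ S, f x ∈ S') :
    (∀ x ∈ LinearMap.range (hincl C j V T hT),
      C.map j V V f hf x ∈ LinearMap.range (hincl C j V S' hS') →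
      x ∈ LinearMap.range (hincl C j V S hS)) ∧
    ∀ y ∈ LinearMap.range (hincl C j V T' hT'), ∃ x ∈ LinearMap.range (hincl C j V T hT),
      C.map j V V f hf x - y ∈ LinearMap.range (hincl C j V S' hS') := by
  let ν : (T ⧸ S.submoduleOf T) →ₗ[K] (T' ⧸ S'.submoduleOf T') :=
    Submodule.mapQ _ _ (f.restrict hfT) fun x hx => hfS x.1 hx
  have hν : ∀ x : T, ν ((S.submoduleOf T).mkQ x) = (S'.submoduleOf T').mkQ (f.restrict hfT x) :=
    fun _ => rfl
  have hνinj : Function.Injective ν := by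
    rw [← LinearMap.ker_eq_bot, LinearMap.ker_eq_bot']
    intro x hx
    obtain ⟨x, rfl⟩ := Submodule.mkQ_surjective _ x
    rw [hν] at hx
    have h1 : f.restrict hfT x ∈ S'.submoduleOf T' := (Submodule.Quotient.mk_eq_zero _).1 hx
    exact (Submodule.Quotient.mk_eq_zero _).2 (hinj _ x.2 h1)
  have hνsurj : Function.Surjective ν := by
    intro y
    obtain ⟨y, rfl⟩ := Submodule.mkQ_surjective _ y
    obtain ⟨x, hx, hxy⟩ := hsurj y.1 y.2
    refine ⟨(S.submoduleOf T).mkQ ⟨x, hx⟩, ?_⟩
    rw [hν, ← sub_eq_zero, ← map_sub]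
    exact (Submodule.Quotient.mk_eq_zero _).2 hxy
  have hνG : IsMor (A := quoSh V S T hS hT) (A' := quoSh V S' T' hS' hT') ν := by
    intro g hg v
    obtain ⟨v, rfl⟩ := Submodule.mkQ_surjective _ v
    have h1 := mkQ_mor hS hT g hg v
    have h2 := mkQ_mor hS' hT' g hg (f.restrict hfT v)
    have h3 := restrict_mor hT hT' f hf hfT g hg v
    rw [← h1, hν, hν, h3, h2]
  let e : (T ⧸ S.submoduleOf T) ≃ₗ[K] (T' ⧸ S'.submoduleOf T') :=
    LinearEquiv.ofBijective ν ⟨hνinj, hνsurj⟩
  have he : ∀ x, e x = ν x := fun _ => rfl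
  have heG : IsMor (A := quoSh V S' T' hS' hT') (A' := quoSh V S T hS hT)
      e.symm.toLinearMap := by
    intro g hg v
    apply e.injective
    have h1 := hνG g hg (e.symm.toLinearMap v)
    rw [he ((quoSh V S T hS hT).act g (e.symm.toLinearMap v)), h1, ← he]
    simp
  -- the induced maps on cohomology
  have hcomm : ∀ x, C.map j (quoSh V S T hS hT) (quoSh V S' T' hS' hT') ν hνG
      (hquo C hS hT j x) = hquo C hS' hT' j (C.map j (subSh V T hT) (subSh V T' hT')
        (f.restrict hfT) (restrict_mor hT hT' f hf hfT) x) := by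
    intro x
    have hc : IsMor (A := subSh V T hT) (A' := quoSh V S' T' hS' hT')
        (ν.comp (S.submoduleOf T).mkQ) := by
      intro g hg v
      have h1 := mkQ_mor hS hT g hg v
      have h2 := hνG g hg ((S.submoduleOf T).mkQ v)
      rw [LinearMap.comp_apply, h1, h2]
      rfl
    have h1 := hmap_comp (C := C) (j := j) (A := subSh V T hT) (A' := quoSh V S T hS hT)
      (A'' := quoSh V S' T' hS' hT') (S.submoduleOf T).mkQ (mkQ_mor hS hT) ν hνG
      (ν.comp (S.submoduleOf T).mkQ) hc (fun _ => rfl) x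
    have h2 := hmap_comp (C := C) (j := j) (A := subSh V T hT) (A' := subSh V T' hT')
      (A'' := quoSh V S' T' hS' hT') (f.restrict hfT) (restrict_mor hT hT' f hf hfT)
      (S'.submoduleOf T').mkQ (mkQ_mor hS' hT')
      (ν.comp (S.submoduleOf T).mkQ) hc (fun v => (hν v).symm) x
    exact h1.trans h2.symm
  have hleft : ∀ x, C.map j (quoSh V S' T' hS' hT') (quoSh V S T hS hT) e.symm.toLinearMap heG
      (C.map j (quoSh V S T hS hT) (quoSh V S' T' hS' hT') ν hνG x) = x := by
    intro x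
    have h1 := hmap_comp (C := C) (j := j) (A := quoSh V S T hS hT)
      (A' := quoSh V S' T' hS' hT')
      (A'' := quoSh V S T hS hT) ν hνG e.symm.toLinearMap heG LinearMap.id isMor_id
      (fun v => by exact e.symm_apply_apply v) x
    exact h1.trans (hmap_id _ _ (fun _ => rfl) x)
  have hright : ∀ x, C.map j (quoSh V S T hS hT) (quoSh V S' T' hS' hT') ν hνG
      (C.map j (quoSh V S' T' hS' hT') (quoSh V S T hS hT) e.symm.toLinearMap heG x) = x := by
    intro x
    have h1 := hmap_comp (C := C) (j := j) (A := quoSh V S' T' hS' hT')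
      (A' := quoSh V S T hS hT)
      (A'' := quoSh V S' T' hS' hT') e.symm.toLinearMap heG ν hνG LinearMap.id isMor_id
      (fun v => by exact e.apply_symm_apply v) x
    exact h1.trans (hmap_id _ _ (fun _ => rfl) x)
  refine ⟨?_, ?_⟩
  · rintro _ ⟨x, rfl⟩ ⟨y, hy⟩
    rw [hincl_restrict hT hT' f hf hfT x, ← hincl_hinc hS' hT' hST'] at hy
    have h1 := hincl_injective hT' ss hy
    have h2 : C.map j (quoSh V S T hS hT) (quoSh V S' T' hS' hT') ν hνG
        (hquo C hS hT j x) = 0 := by
      rw [hcomm, ← h1]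
      exact hquo_hinc _ _ _ _
    have h3 : hquo C hS hT j x = 0 := by
      rw [← hleft (hquo C hS hT j x), h2, map_zero]
    obtain ⟨x', rfl⟩ := hquo_exact hS hT hST ss x h3
    exact ⟨x', (hincl_hinc hS hT hST x').symm⟩
  · rintro _ ⟨y, rfl⟩
    obtain ⟨x, hx⟩ := hquo_surjective (C := C) (j := j) hS hT hST ss
      (C.map j (quoSh V S' T' hS' hT') (quoSh V S T hS hT) e.symm.toLinearMap heG
        (hquo C hS' hT' j y))
    refine ⟨_, ⟨x, rfl⟩, ?_⟩
    rw [hincl_restrict hT hT' f hf hfT x, ← map_sub]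
    have h1 : hquo C hS' hT' j (C.map j (subSh V T hT) (subSh V T' hT')
        (f.restrict hfT) (restrict_mor hT hT' f hf hfT) x - y) = 0 := by
      rw [map_sub, ← hcomm, hx, hright, sub_self]
    obtain ⟨t, ht⟩ := hquo_exact hS' hT' hST' ss _ h1
    refine ⟨t, ?_⟩
    rw [← ht, hincl_hinc]

end

end Pool.Agent.TH131.WMF
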