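import Mathlib
import Pool.Agent.TH131.WMF.Iso

set_option autoImplicit false

namespace Pool.Agent.TH131.WMF

open Polynomial

variable {B : Base} {K : Type} [Field K] {C : Cohomology B K} {j : ℕ} {V : Sheaf B K}

lemma pow_mor {N : Module.End K V} (hN : IsMor N) (r : ℕ) : IsMor (N ^ r) := by
  intro g hg v
  induction r generalizing v with
  | zero => simp
  | succ r ih =>
    have h := hN g hg v
    rw [pow_succ, Module.End.mul_apply, h, ih, Module.End.mul_apply]

lemma hmap_pow {N : Module.End K V} (hN : IsMor N) (r : ℕ) (x) :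
    ((C.map j V V N hN : Module.End K (C.H j V)) ^ r) x = C.map j V V (N ^ r) (pow_mor hN r) x := by
  induction r generalizing x with
  | zero => exact (hmap_id _ _ (fun _ => by simp) x).symm
  | succ r ih =>
    rw [pow_succ, Module.End.mul_apply, ih]
    exact hmap_comp _ _ _ _ _ _ (fun v => by rw [pow_succ, Module.End.mul_apply]) x

lemma pow_mem {N : Module.End K V} {T : ℤ → Submodule K V}
    (hN : ∀ a, ∀ x ∈ T a, N x ∈ T (a - 2)) (r : ℕ) :
    ∀ a, ∀ x ∈ T a, (N ^ r) x ∈ T (a - 2 * r) := by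
  induction r with
  | zero => intro a x hx; simpa using hx
  | succ r ih =>
    intro a x hx
    rw [pow_succ, Module.End.mul_apply]
    have := ih _ _ (hN a x hx)
    rwa [show a - 2 - 2 * (r : ℤ) = a - 2 * ((r + 1 : ℕ) : ℤ) by push_cast; ring] at this

variable [CharZero K]

lemma quo_pure {q : ℕ} {a : ℤ} {S T : Submodule K V} (hS : ∀ w, Stable S w)
    (hT : ∀ w, Stable T w) (w : B.W) (h : IsPureOn q a (V.act w) T S) :
    IsPure q a ((quoSh V S T hS hT).act w) := by
  intro x _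
  obtain ⟨x, rfl⟩ := Submodule.mkQ_surjective _ x
  obtain ⟨P, hP, hPx⟩ := h x.1 x.2
  refine ⟨P, hP, ?_⟩
  have h1 := aeval_comm (S.submoduleOf T).mkQ ((subSh V T hT).act w)
    ((quoSh V S T hS hT).act w) (fun _ => rfl) P x
  have h2 := aeval_comm T.subtype ((subSh V T hT).act w) (V.act w) (fun _ => rfl) P x
  rw [Submodule.mem_bot, ← h1]
  refine (Submodule.Quotient.mk_eq_zero _).2 ?_
  change T.subtype _ ∈ S
  rw [h2]
  exact hPx

theorem mwPure_H (L : LisseSheaves B K) (hV : L.Lisse V) (ss : Semisimple V)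
    (Φ : FrobeniusAction C) (hW : WeilTwo L Φ) (N : Module.End K V) (hNmor : IsMor N)
    (F : WeightFiltration V) (w : ℤ) (hz : IsMonodromyWeightPure B.q w (V.act B.z) N) :
    IsMonodromyWeightPure B.q (w + j) (Φ.frob j V) (C.map j V V N hNmor) := by
  obtain ⟨M, hmono, hbot, htop, hN, hφ, hinj, hsurj, hpure⟩ := hz
  -- the monodromy filtration is the weight filtration
  have hMfil : ∀ a, M a = F.fil (w + a) := by
    have hfz : ∀ a, IsPureOn B.q a (V.act B.z) (F.fil a) (F.fil (a - 1)) := by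
      intro a
      have := F.pure a _ B.z_frob
      simpa using this
    have hFz : ∀ a, IsPureOn B.q a (V.act B.z) (M (a - w)) (M (a - 1 - w)) := by
      intro a
      have := hpure (a - w)
      rwa [show w + (a - w) = a by ring, show a - w - 1 = a - 1 - w by ring] at this
    have hFmono : Monotone fun a => M (a - w) := fun a b hab => hmono (by simpa using hab)
    have hFbot : ∃ a, M (a - w) = ⊥ := by
      obtain ⟨a, ha⟩ := hbot
      exact ⟨a + w, by rw [add_sub_cancel_right, ha]⟩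
    have hFtop : ∃ a, M (a - w) = ⊤ := by
      obtain ⟨a, ha⟩ := htop
      exact ⟨a + w, by rw [add_sub_cancel_right, ha]⟩
    intro a
    have h1 := fil_le B.one_lt_q hFmono hFbot hFz F.mono F.top
      (fun a x hx => F.stable a B.z x hx) hfz (w + a)
    have h2 := fil_le B.one_lt_q F.mono F.bot hfz hFmono hFtop
      (fun a x hx => hφ _ x hx) hFz (w + a)
    simp only [add_sub_cancel_left] at h1 h2
    exact le_antisymm h1 h2
  have hT : ∀ a w', Stable (M a) w' := by
    intro a w'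
    rw [hMfil]
    exact F.stable _ w'
  have hMpure : ∀ a, ∀ p ∈ B.frob, IsPureOn (B.q ^ p.2) (w + a) (V.act p.1) (M a) (M (a - 1)) := by
    intro a p hp
    rw [hMfil, hMfil]
    have := F.pure (w + a) p hp
    rwa [show w + a - 1 = w + (a - 1) by ring] at this
  clear hMfil
  -- the powers of the monodromy operator on the filtration
  have hNr : ∀ r : ℕ, ∀ x ∈ M r, (N ^ r) x ∈ M (-r) := by
    intro r x hx
    have := pow_mem hN r _ x hx
    rwa [show (r : ℤ) - 2 * r = -r by ring] at this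
  have hNr' : ∀ r : ℕ, ∀ x ∈ M (r - 1), (N ^ r) x ∈ M (-r - 1) := by
    intro r x hx
    have := pow_mem hN r _ x hx
    rwa [show (r : ℤ) - 1 - 2 * r = -r - 1 by ring] at this
  refine ⟨fun a => LinearMap.range (hincl C j V (M a) (hT a)), ?_, ?_, ?_, ?_, ?_, ?_, ?_, ?_⟩
  · rintro a b hab _ ⟨x, rfl⟩
    exact ⟨hinc C (hT a) (hT b) j (hmono hab) x, hincl_hinc _ _ _ x⟩
  · obtain ⟨a, ha⟩ := hbot
    refine ⟨a, ?_⟩
    rw [LinearMap.range_eq_bot]
    ext x
    refine hmap_zero _ _ (fun v => ?_) x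
    have hv : (v.1 : V) ∈ M a := v.2
    have hv' : (v.1 : V) ∈ (⊥ : Submodule K V) := ha ▸ hv
    exact hv'
  · obtain ⟨a, ha⟩ := htop
    refine ⟨a, ?_⟩
    rw [LinearMap.range_eq_top]
    intro x
    obtain ⟨r, hr, hrG⟩ := exists_retraction (hT a) ss
    refine ⟨C.map j V (subSh V (M a) (hT a)) r hrG x, ?_⟩
    have h1 := hmap_comp (C := C) (j := j) (A := V) (A' := subSh V (M a) (hT a)) (A'' := V)
      r hrG (M a).subtype (incl_mor (hT a)) LinearMap.id isMor_id (fun v => by
        have hv : v ∈ M a := ha ▸ Submodule.mem_top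
        exact congrArg Subtype.val (hr ⟨v, hv⟩)) x
    exact h1.trans (hmap_id _ _ (fun _ => rfl) x)
  · rintro a _ ⟨x, rfl⟩
    exact ⟨_, (hincl_restrict (hT a) (hT (a - 2)) N hNmor (hN a) x).symm⟩
  · rintro a _ ⟨x, rfl⟩
    exact ⟨Φ.frob j _ x, hincl_frob _ Φ x⟩
  · intro r x hx hx'
    rw [hmap_pow] at hx'
    exact (range_iso (hT (r - 1)) (hT r) (hT (-r - 1)) (hT (-r)) (N ^ r) (pow_mor hNmor r)
      (hNr r) (hmono (by omega)) (hmono (by omega)) ss (hinj r) (hsurj r) (hNr' r)).1 x hx hx'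
  · intro r y hy
    obtain ⟨x, hx, hxy⟩ := (range_iso (hT (r - 1)) (hT r) (hT (-r - 1)) (hT (-r)) (N ^ r)
      (pow_mor hNmor r) (hNr r) (hmono (by omega)) (hmono (by omega)) ss (hinj r) (hsurj r)
      (hNr' r)).2 y hy
    exact ⟨x, hx, by rwa [hmap_pow]⟩
  · rintro a _ ⟨x, rfl⟩
    have hle : M (a - 1) ≤ M a := hmono (by omega)
    have hp := hW j (w + a) (quoSh V (M (a - 1)) (M a) (hT (a - 1)) (hT a))
      (lisse_quoSh L hV _ _ _ _) (fun p hp => quo_pure _ _ _ (hMpure a p hp))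
    obtain ⟨P, hP, hPx⟩ := hp (hquo C (hT (a - 1)) (hT a) j x) trivial
    refine ⟨P, by rwa [show w + (j : ℤ) + a = w + a + j by ring], ?_⟩
    have h1 := aeval_comm (hquo C (hT (a - 1)) (hT a) j) (Φ.frob j _)
      (Φ.frob j _) (fun x => hquo_frob _ _ Φ x) P x
    rw [Submodule.mem_bot, ← h1] at hPx
    obtain ⟨y, hy⟩ := hquo_exact (hT (a - 1)) (hT a) hle ss _ hPx
    refine ⟨y, ?_⟩
    have h2 := aeval_comm (hincl C j V (M a) (hT a)) (Φ.frob j _)
      (Φ.frob j _) (fun x => hincl_frob _ Φ x) P x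
    rw [← h2, ← hy, hincl_hinc]

end Pool.Agent.TH131.WMF
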