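import Mathlib
import Pool.Agent.TH131.WMF.ConeMain

/-!
# Projective SNCL schemes over families of log points
-/

set_option autoImplicit false

namespace Pool.Agent.TH131.WMF

variable {K : ℕ → Type} [∀ ℓ, Field (K ℓ)]

/-- All projective SNCL schemes `X` over families of log points `S`, such that the fibres are closed
subschemes of degree at most `d` of `ℙ^n`; here `B` is the base of the family of all projective
SNCL schemes of degree at most `d` over log points. -/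
structure SNCLSchemes (F : LogFamily K) where
  Obj : Type
  /-- the points of the underlying scheme of `S` -/
  S : Obj → Type
  /-- the point of `B` given by the fibre of `X` over `s` -/
  pt : ∀ X, S X → PrimeSpectrum F.A
  /-- the stalk at a geometric point over `s` of the higher direct image `H^w`, with the monodromy
  operator and the weight filtration -/
  H : ∀ X, S X → ∀ ℓ : ℕ, ℕ → WN (K ℓ)

namespace SNCLSchemes

variable {F : LogFamily K} (𝒮 : SNCLSchemes F)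

/-- The prime number `ℓ` is invertible on `S`. -/
def IsInvertible (X : 𝒮.Obj) (ℓ : ℕ) : Prop :=
  ℓ.Prime ∧ ∀ s : 𝒮.S X, (ℓ : F.A) ∉ (𝒮.pt X s).asIdeal

/-- Proper base change: the stalks of `H^w` are the cohomology groups of the geometric fibres. -/
def BaseChange : Prop :=
  ∀ X (ℓ : ℕ), 𝒮.IsInvertible X ℓ → ∀ (s : 𝒮.S X) (w : ℕ), IsIso (F.H (𝒮.pt X s) ℓ w) (𝒮.H X s ℓ w)

/-- Kato's conjecture for `H^w`: for all `e`, the map `N^e` from the graded piece of degree `w + e`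
of the weight filtration to the graded piece of degree `w - e` is an isomorphism. -/
def Kato (X : 𝒮.Obj) (ℓ w : ℕ) : Prop := ∀ s : 𝒮.S X, IsLefschetz (𝒮.H X s ℓ w) w

end SNCLSchemes

/-- Kato's conjecture for `H^w` of the fibre over the point `b` of the family of all projective
SNCL schemes of degree at most `d` over log points. -/
def LogFamily.Kato (F : LogFamily K) (b : PrimeSpectrum F.A) (ℓ w : ℕ) : Prop :=
  IsLefschetz (F.H b ℓ w) w

/-- The residue field of `b` has positive characteristic. -/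
def PosChar {A : Type} [CommRing A] (b : PrimeSpectrum A) : Prop :=
  ∃ p : ℕ, p.Prime ∧ (p : A) ∈ b.asIdeal

theorem kato_finite {F : LogFamily K} (hl : F.IsLisse) (hh : F.HodgeTheory) (𝒮 : SNCLSchemes F)
    (hb : 𝒮.BaseChange) :
    ∃ T : Set (PrimeSpectrum F.A), T.Finite ∧ (∀ b ∈ T, PosChar b) ∧
      ∀ X : 𝒮.Obj, ∃ T' ⊆ T, (∀ b ∈ T', ∃ s, b ≤ 𝒮.pt X s) ∧
        ∀ ℓ : ℕ, 𝒮.IsInvertible X ℓ → ∀ w : ℕ, 𝒮.Kato X ℓ w ↔ ∀ b ∈ T', F.Kato b ℓ w := by
  obtain ⟨T, hTf, hTP, hTc⟩ := exists_strata _ hl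
  refine ⟨Prod.fst '' T ∩ {b | PosChar b}, (hTf.image _).inter_of_left _, fun b hb => hb.2,
    fun X => ?_⟩
  refine ⟨{b | ∃ t ∈ T, t.1 = b ∧ PosChar b ∧ ∃ s, b ≤ 𝒮.pt X s ∧ t.2 ∉ (𝒮.pt X s).asIdeal},
    ?_, ?_, ?_⟩
  · rintro _ ⟨t, ht, rfl, hp, -⟩
    exact ⟨⟨t, ht, rfl⟩, hp⟩
  · rintro _ ⟨t, ht, rfl, hp, s, hs, -⟩
    exact ⟨s, hs⟩
  · intro ℓ hℓ w
    have iso : ∀ t ∈ T, ∀ s : 𝒮.S X, t.1 ≤ 𝒮.pt X s → t.2 ∉ (𝒮.pt X s).asIdeal →
        IsIso (F.H t.1 ℓ w) (𝒮.H X s ℓ w) := fun t ht s hs hf =>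
      (hTP t ht (𝒮.pt X s) hs hf ℓ hℓ.1 (hℓ.2 s) w).trans (hb X ℓ hℓ s w)
    constructor
    · rintro h _ ⟨t, ht, rfl, -, s, hs, hf⟩
      exact (iso t ht s hs hf).symm.lefschetz (h s)
    · intro h s
      obtain ⟨t, ht, hs, hf⟩ := hTc (𝒮.pt X s)
      refine (iso t ht s hs hf).lefschetz ?_
      by_cases hp : PosChar t.1
      · exact h t.1 ⟨t, ht, rfl, hp, s, hs, hf⟩
      · refine hh t.1 (fun p hpp hpm => hp ⟨p, hpp, hpm⟩) ℓ hℓ.1 w

end Pool.Agent.TH131.WMF
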